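import Pool.Agent.TH26.Zeta.Pts

/-!
# An affine scheme with the same points in finite fields
-/

set_option autoImplicit false

namespace Pool.Agent.TH26.Zeta

open AlgebraicGeometry CategoryTheory TopologicalSpace

section Prod

variable {B C K : Type} [CommRing B] [CommRing C] [Field K]

/-- a homomorphism of a product ring to a field factors through one of the factors -/
theorem prodHom_bijective :
    Function.Bijective (Sum.elim (fun φ : B →+* K => φ.comp (RingHom.fst B C))
      (fun ψ : C →+* K => ψ.comp (RingHom.snd B C))) := by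
  constructor
  · rintro (φ | φ) (ψ | ψ) h
    · congr 1
      ext b
      exact RingHom.congr_fun h (b, 0)
    · exfalso
      have := RingHom.congr_fun h (1, 0)
      simp at this
    · exfalso
      have := RingHom.congr_fun h (1, 0)
      simp at this
    · congr 1
      ext b
      exact RingHom.congr_fun h (0, b)
  · intro χ
    have h1 : χ (1, 0) * χ (0, 1) = 0 := by
      rw [← map_mul]
      have : ((1, 0) : B × C) * (0, 1) = 0 := by ext <;> simp
      rw [this, map_zero]
    have h2 : χ (1, 0) + χ (0, 1) = 1 := by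
      rw [← map_add]
      have : ((1, 0) : B × C) + (0, 1) = 1 := by ext <;> simp
      rw [this, map_one]
    have h4 : ∀ z : B × C, χ z = χ (z.1, 0) + χ (0, z.2) := by
      intro z
      rw [← map_add]
      congr 1
      ext <;> simp
    have h5 : ∀ b : B, χ (b, 0) = χ (1, 0) * χ (b, 0) := by
      intro b
      rw [← map_mul]
      congr 1
      ext <;> simp
    have h6 : ∀ c : C, χ (0, c) = χ (0, 1) * χ (0, c) := by
      intro c
      rw [← map_mul]
      congr 1
      ext <;> simp
    rcases mul_eq_zero.mp h1 with h | h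
    · have h3 : χ (0, 1) = 1 := by rw [← h2, h, zero_add]
      refine ⟨Sum.inr
        { toFun := fun c => χ (0, c)
          map_one' := h3
          map_mul' := fun x y => ?_
          map_zero' := map_zero χ
          map_add' := fun x y => ?_ }, ?_⟩
      · rw [← map_mul]
        congr 1
        ext <;> simp
      · rw [← map_add]
        congr 1
        ext <;> simp
      · ext z
        have := h4 z
        rw [h5, h, zero_mul, zero_add] at this
        exact this.symm
    · have h3 : χ (1, 0) = 1 := by rw [← h2, h, add_zero]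
      refine ⟨Sum.inl
        { toFun := fun c => χ (c, 0)
          map_one' := h3
          map_mul' := fun x y => ?_
          map_zero' := map_zero χ
          map_add' := fun x y => ?_ }, ?_⟩
      · rw [← map_mul]
        congr 1
        ext <;> simp
      · rw [← map_add]
        congr 1
        ext <;> simp
      · ext z
        have := h4 z
        rw [h6, h, zero_mul, add_zero] at this
        exact this.symm

end Prod

/-- finite disjoint unions of affine schemes -/
theorem exists_union (r : ℕ) (B : Fin r → Type) [∀ i, CommRing (B i)]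
    (hB : ∀ i, Algebra.FiniteType ℤ (B i)) :
    ∃ (C : Type) (_ : CommRing C), Algebra.FiniteType ℤ C ∧
      ∀ a : PP, Nonempty ((Σ i, (B i →+* KK a)) ≃ (C →+* KK a)) := by
  induction r with
  | zero =>
    refine ⟨PUnit, inferInstance, ?_, fun a => ?_⟩
    · have : Module.Finite ℤ PUnit := inferInstance
      infer_instance
    · have h1 : IsEmpty (Σ i, (B i →+* KK a)) := ⟨fun z => Fin.elim0 z.1⟩
      have h2 : IsEmpty (PUnit →+* KK a) := ⟨fun φ => by
        have h3 : φ 1 = 1 := map_one φ
        have h4 : φ 0 = 0 := map_zero φ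
        have h5 : (1 : PUnit) = 0 := Subsingleton.elim _ _
        rw [h5, h4] at h3
        exact zero_ne_one h3⟩
      exact ⟨Equiv.equivOfIsEmpty _ _⟩
  | succ r ih =>
    obtain ⟨C, hC, hC1, hC2⟩ := ih (fun i => B i.succ) (fun i => hB i.succ)
    have h0 := hB 0
    refine ⟨B 0 × C, inferInstance, ?_, fun a => ?_⟩
    · have h3 : @Algebra.FiniteType ℤ (B 0 × C) _ _ (Prod.algebra ℤ (B 0) C) :=
        Algebra.FiniteType.prod (hA := h0) (hB := hC1)
      have h4 : (Prod.algebra ℤ (B 0) C : Algebra ℤ (B 0 × C)) = Ring.toIntAlgebra (B 0 × C) :=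
        Subsingleton.elim _ _
      rw [h4] at h3
      exact h3
    · obtain ⟨e⟩ := hC2 a
      have e1 : (Σ i, (B i →+* KK a)) ≃ (B 0 →+* KK a) ⊕ (Σ i : Fin r, (B i.succ →+* KK a)) :=
        { toFun := fun z => Fin.cases (motive := fun i => (B i →+* KK a) →
              (B 0 →+* KK a) ⊕ (Σ i : Fin r, (B i.succ →+* KK a)))
            (fun φ => Sum.inl φ) (fun i φ => Sum.inr ⟨i, φ⟩) z.1 z.2
          invFun := Sum.elim (fun φ => ⟨0, φ⟩) (fun z => ⟨z.1.succ, z.2⟩)
          left_inv := fun ⟨i, φ⟩ => by
            refine Fin.cases ?_ ?_ i φ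
            · intro φ
              rfl
            · intro i φ
              rfl
          right_inv := fun z => by
            rcases z with φ | z
            · rfl
            · rfl }
      exact ⟨e1.trans ((Equiv.sumCongr (Equiv.refl _) e).trans
        (Equiv.ofBijective _ (prodHom_bijective (B := B 0) (C := C) (K := KK a))))⟩

variable {X : Scheme.{0}} (f : X ⟶ Spec (CommRingCat.of ℤ))

theorem finiteType_sections [LocallyOfFiniteType f] {U : X.Opens} (hU : IsAffineOpen U) :
    Algebra.FiniteType ℤ Γ(X, U) := by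
  have h1 : LocallyOfFiniteType (hU.fromSpec ≫ f) := inferInstance
  obtain ⟨φ, hφ⟩ := Spec.map_surjective (hU.fromSpec ≫ f)
  rw [← hφ, HasRingHomProperty.Spec_iff (P := @LocallyOfFiniteType)] at h1
  have h2 : φ.hom = algebraMap ℤ Γ(X, U) := Subsingleton.elim _ _
  rw [h2] at h1
  exact RingHom.finiteType_algebraMap.mp h1

/-- a finite affine open cover, as a sequence -/
theorem exists_cover [QuasiCompact f] : ∃ (r : ℕ) (U : Fin r → X.Opens),
    (∀ i, IsAffineOpen (U i)) ∧ ∀ x : X, ∃ i, x ∈ U i := by
  have hc : CompactSpace X := QuasiCompact.compactSpace_of_compactSpace f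
  have h1 : IsCompact ((⊤ : X.Opens) : Set X) := by
    simpa using isCompact_univ (X := X)
  obtain ⟨s, hs, h2⟩ := isCompact_iff_finite_and_eq_biUnion_affineOpens.mp h1
  have hfin := hs.fintype
  obtain ⟨r, ⟨e⟩⟩ : ∃ r : ℕ, Nonempty (Fin r ≃ s) := by
    obtain ⟨r, ⟨e⟩⟩ := Finite.exists_equiv_fin s
    exact ⟨r, ⟨e.symm⟩⟩
  refine ⟨r, fun i => ((e i).1 : X.Opens), fun i => (e i).1.2, fun x => ?_⟩
  have h3 : x ∈ (⊤ : X.Opens) := trivial
  rw [h2] at h3
  simp only [Opens.mem_iSup] at h3
  obtain ⟨V, hV, hx⟩ := h3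
  refine ⟨e.symm ⟨V, hV⟩, ?_⟩
  simpa using hx

/-- Every scheme of finite type over `ℤ` has the same points in all finite fields as an affine
scheme of finite type over `ℤ`. -/
theorem exists_affine [LocallyOfFiniteType f] [QuasiCompact f] :
    ∃ (B : Type) (_ : CommRing B), Algebra.FiniteType ℤ B ∧
      ∀ a : PP, Nonempty ((Spec (CommRingCat.of (KK a)) ⟶ X) ≃ (B →+* KK a)) := by
  classical
  obtain ⟨r, U, hU, hcov⟩ := exists_cover f
  -- the part of the `i`-th affine piece which is not in the earlier pieces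
  let Z : ∀ i, Set (Spec Γ(X, U i)) := fun i => {z | ∀ j < i, (hU i).fromSpec z ∉ U j}
  have hZ : ∀ i, IsClosed (Z i) := by
    intro i
    have : Z i = ⋂ j : {j // j < i}, ((hU i).fromSpec ⁻¹' (U j.1 : Set X))ᶜ := by
      ext z
      simp [Z]
    rw [this]
    apply isClosed_iInter
    intro j
    rw [isClosed_compl_iff]
    exact (U j.1).isOpen.preimage (hU i).fromSpec.continuous
  let I : ∀ i, Ideal Γ(X, U i) := fun i => PrimeSpectrum.vanishingIdeal (Z i)
  have hI : ∀ i, PrimeSpectrum.zeroLocus (I i : Set Γ(X, U i)) = Z i := fun i => by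
    rw [PrimeSpectrum.zeroLocus_vanishingIdeal_eq_closure]
    exact (hZ i).closure_eq
  have hft : ∀ i, Algebra.FiniteType ℤ (Γ(X, U i) ⧸ I i) := by
    intro i
    have h1 := finiteType_sections f (hU i)
    exact Algebra.FiniteType.of_surjective
      ((Ideal.Quotient.mk (I i)).toIntAlgHom) Ideal.Quotient.mk_surjective
  obtain ⟨C, hC, hC1, hC2⟩ := exists_union r (fun i => (Γ(X, U i) ⧸ I i)) hft
  refine ⟨C, hC, hC1, fun a => ?_⟩
  obtain ⟨e⟩ := hC2 a
  let F : (Σ i, ((Γ(X, U i) ⧸ I i) →+* KK a)) → (Spec (CommRingCat.of (KK a)) ⟶ X) :=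
    fun z => Spec.map (CommRingCat.ofHom (z.2.comp (Ideal.Quotient.mk (I z.1)))) ≫
      (hU z.1).fromSpec
  let pt : Spec (CommRingCat.of (KK a)) := IsLocalRing.closedPoint (KK a)
  have hsub : ∀ y : Spec (CommRingCat.of (KK a)), y = pt := fun y =>
    Subsingleton.elim (α := PrimeSpectrum (KK a)) y pt
  have hpt : ∀ (i : Fin r) (ψ : Γ(X, U i) →+* KK a),
      (Spec.map (CommRingCat.ofHom ψ) pt).asIdeal = RingHom.ker ψ := by
    intro i ψ
    have h1 : (Spec.map (CommRingCat.ofHom ψ) pt).asIdeal =
        Ideal.comap ψ (IsLocalRing.maximalIdeal (KK a)) := rfl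
    rw [h1, IsLocalRing.maximalIdeal_eq_bot]
    rfl
  have hFpt : ∀ z, (F z) pt =
      (hU z.1).fromSpec (Spec.map (CommRingCat.ofHom (z.2.comp (Ideal.Quotient.mk (I z.1)))) pt) :=
    fun z => rfl
  have hin : ∀ z, (F z) pt ∈ U z.1 := by
    intro z
    rw [hFpt]
    have h1 := (hU z.1).range_fromSpec
    have h2 : (hU z.1).fromSpec
        (Spec.map (CommRingCat.ofHom (z.2.comp (Ideal.Quotient.mk (I z.1)))) pt) ∈
        Set.range (hU z.1).fromSpec := ⟨_, rfl⟩
    rw [h1] at h2
    exact h2
  have hmem : ∀ (i : Fin r) (ψ : Γ(X, U i) →+* KK a), (∀ b ∈ I i, ψ b = 0) ↔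
      Spec.map (CommRingCat.ofHom ψ) pt ∈ Z i := by
    intro i ψ
    rw [← hI i]
    change _ ↔ ((I i : Set Γ(X, U i)) ⊆
      ((Spec.map (CommRingCat.ofHom ψ) pt).asIdeal : Set Γ(X, U i)))
    rw [hpt]
    constructor
    · intro h b hb
      exact h b hb
    · intro h b hb
      exact h hb
  have hout : ∀ z, ∀ j < z.1, (F z) pt ∉ U j := by
    intro z
    rw [hFpt]
    have h1 := (hmem z.1 (z.2.comp (Ideal.Quotient.mk (I z.1)))).mp (by
      intro b hb
      rw [RingHom.comp_apply, Ideal.Quotient.eq_zero_iff_mem.mpr hb, map_zero])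
    exact h1
  have hF : Function.Bijective F := by
    constructor
    · rintro ⟨i, φ⟩ ⟨j, φ'⟩ h
      have hij : i = j := by
        rcases lt_trichotomy i j with hlt | heq | hgt
        · exfalso
          apply hout ⟨j, φ'⟩ i hlt
          rw [← h]
          exact hin ⟨i, φ⟩
        · exact heq
        · exfalso
          apply hout ⟨i, φ⟩ j hgt
          rw [h]
          exact hin ⟨j, φ'⟩
      subst hij
      congr 1
      have h1 : Spec.map (CommRingCat.ofHom (φ.comp (Ideal.Quotient.mk (I i)))) =
          Spec.map (CommRingCat.ofHom (φ'.comp (Ideal.Quotient.mk (I i)))) := by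
        rw [← cancel_mono (hU i).fromSpec]
        exact h
      have h2 := Spec.map_injective h1
      have h3 : φ.comp (Ideal.Quotient.mk (I i)) = φ'.comp (Ideal.Quotient.mk (I i)) := by
        have := congrArg CommRingCat.Hom.hom h2
        exact this
      exact Ideal.Quotient.ringHom_ext h3
    · intro g
      obtain ⟨i, hi, hmin⟩ := WellFounded.has_min (wellFounded_lt (α := Fin r))
        {i | g pt ∈ U i} (hcov (g pt))
      have hr : Set.range g ⊆ Set.range (hU i).fromSpec := by
        rintro _ ⟨y, rfl⟩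
        rw [hsub y, (hU i).range_fromSpec]
        exact hi
      obtain ⟨ψ, hψ⟩ := Spec.map_surjective (IsOpenImmersion.lift (hU i).fromSpec g hr)
      have hfac : Spec.map ψ ≫ (hU i).fromSpec = g := by
        rw [hψ]
        exact IsOpenImmersion.lift_fac _ _ _
      have hker : ∀ b ∈ I i, ψ.hom b = 0 := by
        rw [hmem i ψ.hom]
        intro j hj hx
        apply hmin j _ hj
        change g pt ∈ U j
        rw [← hfac]
        exact hx
      refine ⟨⟨i, Ideal.Quotient.lift (I i) ψ.hom hker⟩, ?_⟩
      have h1 : (Ideal.Quotient.lift (I i) ψ.hom hker).comp (Ideal.Quotient.mk (I i)) = ψ.hom := by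
        ext b
        simp
      change Spec.map (CommRingCat.ofHom ((Ideal.Quotient.lift (I i) ψ.hom hker).comp
        (Ideal.Quotient.mk (I i)))) ≫ (hU i).fromSpec = g
      rw [h1]
      exact hfac
  exact ⟨(Equiv.ofBijective F hF).symm.trans e⟩

end Pool.Agent.TH26.Zeta
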