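import Pool.Agent.TH26.Zeta.Gates

/-!
# The smooth affine cubic hypersurface of a system of elementary equations
-/

set_option autoImplicit false

namespace Pool.Agent.TH26.Zeta

open MvPolynomial

variable {N m : ℕ}

/-- the cubic polynomial `∑ t_j g_j(x)` -/
noncomputable def cubic (G : Fin m → Gate (Fin N)) : MvPolynomial (Fin N ⊕ Fin m) ℤ :=
  ∑ j, X (Sum.inr j) * rename Sum.inl (G j).poly

/-- the coordinate ring of the affine hypersurface `∑ t_j g_j(x) = 1` over `ℤ` -/
abbrev CubicRing (G : Fin m → Gate (Fin N)) : Type :=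
  MvPolynomial (Fin N ⊕ Fin m) ℤ ⧸ Ideal.span {cubic G - 1}

/-- homomorphisms of a quotient of a polynomial ring -/
noncomputable def quotHomEquiv {σ : Type} (I : Ideal (MvPolynomial σ ℤ)) (K : Type) [CommRing K] :
    (MvPolynomial σ ℤ ⧸ I →+* K) ≃ {x : σ → K // ∀ f ∈ I, aeval x f = 0} where
  toFun φ := ⟨fun i => φ (Ideal.Quotient.mk I (X i)), fun f hf => by
    have h : (aeval fun i => φ (Ideal.Quotient.mk I (X i))).toRingHom =
        φ.comp (Ideal.Quotient.mk I) := by
      apply MvPolynomial.ringHom_ext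
      · intro r
        simp
      · intro i
        simp
    have h1 := RingHom.congr_fun h f
    have h2 : (aeval fun i => φ (Ideal.Quotient.mk I (X i))) f = φ (Ideal.Quotient.mk I f) := h1
    rw [h2, Ideal.Quotient.eq_zero_iff_mem.mpr hf, map_zero]⟩
  invFun x := Ideal.Quotient.lift I (aeval x.1).toRingHom x.2
  left_inv φ := by
    apply Ideal.Quotient.ringHom_ext
    apply MvPolynomial.ringHom_ext
    · intro r
      simp
    · intro i
      simp
  right_inv x := by
    apply Subtype.ext
    funext i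
    simp

theorem aeval_mem_span {σ : Type} {K : Type} [CommRing K] (S : Set (MvPolynomial σ ℤ))
    (x : σ → K) : (∀ f ∈ Ideal.span S, aeval x f = 0) ↔ ∀ f ∈ S, aeval x f = 0 := by
  constructor
  · intro h f hf
    exact h f (Ideal.subset_span hf)
  · intro h f hf
    have h1 : Ideal.span S ≤ RingHom.ker (aeval x).toRingHom := by
      rw [Ideal.span_le]
      intro g hg
      exact h g hg
    exact h1 hf

theorem aeval_cubic (G : Fin m → Gate (Fin N)) {K : Type} [CommRing K] (z : Fin N ⊕ Fin m → K) :
    aeval z (cubic G) = ∑ j, z (Sum.inr j) * aeval (z ∘ Sum.inl) (G j).poly := by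
  simp only [cubic, map_sum, map_mul, aeval_X, aeval_rename]

/-- points of the cubic hypersurface -/
abbrev Cub (G : Fin m → Gate (Fin N)) (K : Type) [CommRing K] : Type :=
  {z : Fin N ⊕ Fin m → K // ∑ j, z (Sum.inr j) * aeval (z ∘ Sum.inl) (G j).poly = 1}

noncomputable def cubicHomEquiv (G : Fin m → Gate (Fin N)) (K : Type) [CommRing K] :
    (CubicRing G →+* K) ≃ Cub G K :=
  (quotHomEquiv _ K).trans (Equiv.subtypeEquivRight fun z => by
    rw [aeval_mem_span]
    simp only [Set.mem_singleton_iff, forall_eq]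
    rw [map_sub, aeval_cubic, map_one, sub_eq_zero])

/-- the number of points of an affine hyperplane -/
noncomputable def hyperplaneEquiv {K : Type} [Field K] (a : Fin m → K) (j : Fin m) (hj : a j ≠ 0) :
    K × {t : Fin m → K // ∑ i, t i * a i = 1} ≃ (Fin m → K) where
  toFun z := z.2.1 + Pi.single j (z.1 / a j)
  invFun u := (∑ i, u i * a i - 1, ⟨u - Pi.single j ((∑ i, u i * a i - 1) / a j), by
    simp only [Pi.sub_apply, sub_mul, Finset.sum_sub_distrib]
    rw [Finset.sum_eq_single_of_mem (f := fun i => (Pi.single j ((∑ i, u i * a i - 1) / a j) :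
      Fin m → K) i * a i) j (Finset.mem_univ j)]
    · rw [Pi.single_eq_same, div_mul_cancel₀ _ hj]
      ring
    · intro b _ hb
      rw [Pi.single_eq_of_ne hb, zero_mul]⟩)
  left_inv z := by
    have h1 : ∑ i, (z.2.1 + Pi.single j (z.1 / a j) : Fin m → K) i * a i = 1 + z.1 := by
      simp only [Pi.add_apply, add_mul, Finset.sum_add_distrib]
      rw [z.2.2, Finset.sum_eq_single_of_mem (f := fun i => (Pi.single j (z.1 / a j) :
        Fin m → K) i * a i) j (Finset.mem_univ j)]
      · rw [Pi.single_eq_same, div_mul_cancel₀ _ hj]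
      · intro b _ hb
        rw [Pi.single_eq_of_ne hb, zero_mul]
    apply Prod.ext
    · change ∑ i, (z.2.1 + Pi.single j (z.1 / a j) : Fin m → K) i * a i - 1 = z.1
      rw [h1]
      ring
    · apply Subtype.ext
      change z.2.1 + Pi.single j (z.1 / a j) - Pi.single j
        ((∑ i, (z.2.1 + Pi.single j (z.1 / a j) : Fin m → K) i * a i - 1) / a j) = z.2.1
      rw [h1]
      have : (1 + z.1 - 1) / a j = z.1 / a j := by ring
      rw [this]
      simp
  right_inv u := by simp

theorem card_hyperplane {K : Type} [Field K] [Finite K] (a : Fin m → K) (ha : a ≠ 0) :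
    Nat.card K * Nat.card {t : Fin m → K // ∑ i, t i * a i = 1} = Nat.card K ^ m := by
  obtain ⟨j, hj⟩ := Function.ne_iff.mp ha
  rw [← Nat.card_prod, Nat.card_congr (hyperplaneEquiv a j hj)]
  simp [Nat.card_fun]

/-- the points of the cubic over the points of affine space -/
def cubFiber (G : Fin m → Gate (Fin N)) (K : Type) [CommRing K] :
    Cub G K ≃ Σ x : Fin N → K, {t : Fin m → K // ∑ j, t j * aeval x (G j).poly = 1} where
  toFun z := ⟨z.1 ∘ Sum.inl, ⟨z.1 ∘ Sum.inr, z.2⟩⟩
  invFun z := ⟨Sum.elim z.1 z.2.1, z.2.2⟩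
  left_inv z := by
    apply Subtype.ext
    funext i
    rcases i with i | i <;> rfl
  right_inv z := rfl

/-- The relation between the point counts of the system and of its cubic hypersurface. -/
theorem card_cubic (G : Fin m → Gate (Fin N)) (K : Type) [Field K] [Finite K] :
    Nat.card K * Nat.card (Cub G K) + Nat.card K ^ m * Nat.card (Sol G K) =
      Nat.card K ^ m * Nat.card K ^ N := by
  classical
  have := Fintype.ofFinite K
  rw [Nat.card_congr (cubFiber G K), Nat.card_sigma, Finset.mul_sum]
  have h1 : ∀ x : Fin N → K, Nat.card K *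
      Nat.card {t : Fin m → K // ∑ j, t j * aeval x (G j).poly = 1} =
      if ∀ j, (G j).Holds x then 0 else Nat.card K ^ m := by
    intro x
    split_ifs with h
    · have h2 : ∀ j, aeval x (G j).poly = 0 := fun j => ((G j).holds_iff x).mp (h j)
      have : IsEmpty {t : Fin m → K // ∑ j, t j * aeval x (G j).poly = 1} := by
        constructor
        rintro ⟨t, ht⟩
        simp [h2] at ht
      simp
    · apply card_hyperplane (fun j => aeval x (G j).poly)
      intro h0
      apply h
      intro j
      rw [Gate.holds_iff]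
      exact congrFun h0 j
  rw [Finset.sum_congr rfl (fun x _ => h1 x)]
  have h3 : Nat.card (Sol G K) = (Finset.univ.filter
      (fun x : Fin N → K => ∀ j, (G j).Holds x)).card := by
    rw [Nat.card_eq_fintype_card, Fintype.card_subtype]
  have h4 : Nat.card K ^ N = (Finset.univ : Finset (Fin N → K)).card := by
    rw [Finset.card_univ, ← Nat.card_eq_fintype_card]
    simp
  rw [h3, h4, Finset.sum_ite, Finset.sum_const_zero, zero_add, Finset.sum_const, smul_eq_mul,
    mul_comm _ (Nat.card K ^ m), ← mul_add, add_comm,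
    Finset.card_filter_add_card_filter_not]

theorem card_sol_le (G : Fin m → Gate (Fin N)) (K : Type) [Field K] [Finite K] :
    Nat.card (Sol G K) ≤ Nat.card K ^ N := by
  have h := Nat.card_le_card_of_injective (Subtype.val : Sol G K → (Fin N → K))
    Subtype.val_injective
  simpa [Nat.card_fun] using h

theorem card_cub_le (G : Fin m → Gate (Fin N)) (K : Type) [Field K] [Finite K] :
    Nat.card (Cub G K) ≤ Nat.card K ^ (N + m) := by
  have h := Nat.card_le_card_of_injective (Subtype.val : Cub G K → (Fin N ⊕ Fin m → K))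
    Subtype.val_injective
  simpa [Nat.card_fun] using h

/-- homomorphisms of isomorphic rings -/
def homCongr {A B : Type} [CommRing A] [CommRing B] (e : A ≃+* B) (K : Type) [CommRing K] :
    (B →+* K) ≃ (A →+* K) where
  toFun φ := φ.comp (e : A →+* B)
  invFun φ := φ.comp (e.symm : B →+* A)
  left_inv φ := RingHom.ext fun b => congrArg φ (e.apply_symm_apply b)
  right_inv φ := RingHom.ext fun b => congrArg φ (e.symm_apply_apply b)

/-- Algebras of finite type over `ℤ` and systems of elementary equations. -/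
theorem exists_gates_of_finiteType (B : Type) [CommRing B] (hB : Algebra.FiniteType ℤ B) :
    ∃ (N m : ℕ) (G : Fin m → Gate (Fin N)), ∀ (K : Type) [Field K],
      Nonempty ((B →+* K) ≃ Sol G K) := by
  obtain ⟨n, f, hf⟩ := Algebra.FiniteType.iff_quotient_mvPolynomial''.mp hB
  have hfg : (RingHom.ker f.toRingHom).FG := IsNoetherian.noetherian _
  obtain ⟨T, hT⟩ := hfg
  obtain ⟨N, m, G, H⟩ := exists_gates T.toList
  refine ⟨N, m, G, fun K _ => ?_⟩
  obtain ⟨e⟩ := H K
  have e1 : (B →+* K) ≃ (MvPolynomial (Fin n) ℤ ⧸ RingHom.ker f.toRingHom →+* K) :=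
    homCongr (RingHom.quotientKerEquivOfSurjective (f := f.toRingHom) hf) K
  refine ⟨e1.trans ((quotHomEquiv _ K).trans ((Equiv.subtypeEquivRight fun x => ?_).trans e))⟩
  rw [← hT, aeval_mem_span]
  simp

/-- The hypersurface `∑ t_j g_j(x) = 1` is formally smooth over `ℤ`: a solution modulo an ideal of
square zero is corrected by a unit factor in the `t_j`. -/
theorem formallySmooth_cubic (G : Fin m → Gate (Fin N)) :
    Algebra.FormallySmooth ℤ (CubicRing G) := by
  refine Algebra.FormallySmooth.of_comp_surjective fun B _ _ I hI φ => ?_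
  choose v hv using fun i : Fin N ⊕ Fin m =>
    Ideal.Quotient.mk_surjective (I := I) (φ (Ideal.Quotient.mk _ (X i)))
  have hval : ∀ w : Fin N ⊕ Fin m → B, aeval w (cubic G) =
      ∑ j, w (Sum.inr j) * aeval (w ∘ Sum.inl) (G j).poly := fun w => by
    simp only [cubic, map_sum, map_mul, aeval_X, aeval_rename]
  have h1 : Ideal.Quotient.mk I (aeval v (cubic G)) = 1 := by
    have e1 : (Ideal.Quotient.mkₐ ℤ I).comp (aeval v) =
        φ.comp (Ideal.Quotient.mkₐ ℤ (Ideal.span {cubic G - 1})) := by
      apply MvPolynomial.algHom_ext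
      intro i
      simp only [AlgHom.comp_apply, aeval_X]
      exact hv i
    have e2 := AlgHom.congr_fun e1 (cubic G)
    have e3 : (Ideal.Quotient.mkₐ ℤ (Ideal.span {cubic G - 1})) (cubic G) = 1 := by
      have : (Ideal.Quotient.mk (Ideal.span {cubic G - 1})) (cubic G - 1) = 0 :=
        Ideal.Quotient.eq_zero_iff_mem.mpr (Ideal.subset_span rfl)
      rw [map_sub, map_one, sub_eq_zero] at this
      exact this
    rw [AlgHom.comp_apply, AlgHom.comp_apply, e3, map_one] at e2
    exact e2
  let ε : B := aeval v (cubic G) - 1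
  have hε : ε ∈ I := by
    rw [← Ideal.Quotient.eq_zero_iff_mem]
    simp only [ε, map_sub, h1, map_one, sub_self]
  have hε2 : ε * ε = 0 := by
    have : ε * ε ∈ I ^ 2 := by
      rw [pow_two]
      exact Ideal.mul_mem_mul hε hε
    rw [hI] at this
    exact this
  let w : Fin N ⊕ Fin m → B := Sum.elim (fun i => v (Sum.inl i)) (fun j => v (Sum.inr j) * (1 - ε))
  have hw : aeval w (cubic G) = 1 := by
    rw [hval]
    have e1 : w ∘ Sum.inl = v ∘ Sum.inl := rfl
    have e2 : ∀ j, w (Sum.inr j) = v (Sum.inr j) * (1 - ε) := fun j => rfl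
    simp only [e1, e2]
    have e3 : ∑ j, v (Sum.inr j) * (1 - ε) * aeval (v ∘ Sum.inl) (G j).poly =
        (1 - ε) * ∑ j, v (Sum.inr j) * aeval (v ∘ Sum.inl) (G j).poly := by
      rw [Finset.mul_sum]
      apply Finset.sum_congr rfl
      intro j _
      ring
    rw [e3, ← hval]
    have e4 : aeval v (cubic G) = 1 + ε := by
      simp only [ε]
      ring
    rw [e4]
    linear_combination -hε2
  have hker : ∀ f ∈ Ideal.span {cubic G - 1}, aeval w f = 0 := by
    intro f hf
    have h2 : Ideal.span {cubic G - 1} ≤ RingHom.ker (aeval w : MvPolynomial _ ℤ →ₐ[ℤ] B) := by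
      rw [Ideal.span_le, Set.singleton_subset_iff]
      change aeval w (cubic G - 1) = 0
      rw [map_sub, hw, map_one, sub_self]
    exact h2 hf
  refine ⟨Ideal.Quotient.liftₐ _ (aeval w) hker, ?_⟩
  apply Ideal.Quotient.algHom_ext
  apply MvPolynomial.algHom_ext
  intro i
  simp only [AlgHom.comp_apply, Ideal.Quotient.mkₐ_eq_mk, Ideal.Quotient.liftₐ_apply,
    Ideal.Quotient.lift_mk]
  rcases i with i | j
  · have : aeval w (X (Sum.inl i) : MvPolynomial (Fin N ⊕ Fin m) ℤ) = v (Sum.inl i) := by
      rw [aeval_X]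
      rfl
    change Ideal.Quotient.mk I (aeval w (X (Sum.inl i) : MvPolynomial (Fin N ⊕ Fin m) ℤ)) =
      φ (Ideal.Quotient.mk _ (X (Sum.inl i)))
    rw [this]
    exact hv _
  · have : aeval w (X (Sum.inr j) : MvPolynomial (Fin N ⊕ Fin m) ℤ) =
        v (Sum.inr j) * (1 - ε) := by
      rw [aeval_X]
      rfl
    change Ideal.Quotient.mk I (aeval w (X (Sum.inr j) : MvPolynomial (Fin N ⊕ Fin m) ℤ)) =
      φ (Ideal.Quotient.mk _ (X (Sum.inr j)))
    rw [this, map_mul, map_sub, map_one, Ideal.Quotient.eq_zero_iff_mem.mpr hε, sub_zero, mul_one]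
    exact hv _

/-- The hypersurface `∑ t_j g_j(x) = 1` is smooth over `ℤ`. -/
theorem smooth_cubic (G : Fin m → Gate (Fin N)) : Algebra.Smooth ℤ (CubicRing G) := by
  refine ⟨formallySmooth_cubic G, ?_⟩
  exact Algebra.FinitePresentation.quotient ⟨{cubic G - 1}, by simp⟩

end Pool.Agent.TH26.Zeta
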