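import Mathlib

/-!
# The Euler product of a family of finite fields as an exponential series of point counts
-/

set_option autoImplicit false

namespace Pool.Agent.TH26.Zeta

open Complex Filter Topology

/-- A pair `(p, k)`, to be read as the prime power `p ^ (k + 1)`. -/
abbrev PP := Nat.Primes × ℕ

/-- the prime power of a pair -/
def PP.q (a : PP) : ℕ := (a.1 : ℕ) ^ (a.2 + 1)

open Classical in
/-- The number of homomorphisms from a field with `c` elements to a field with `a.q` elements: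
if `c = p ^ d` with `d ∣ k + 1` this is `d`, otherwise it is `0`. -/
noncomputable def wt (c : ℕ) (a : PP) : ℕ :=
  if c = (a.1 : ℕ) ^ (Nat.log a.1 c) ∧ Nat.log a.1 c ∣ a.2 + 1 then Nat.log a.1 c else 0

theorem PP.q_pos (a : PP) : 0 < a.q := pow_pos a.1.2.pos _

theorem PP.two_le_q (a : PP) : 2 ≤ a.q := by
  have h1 := a.1.2.two_le
  calc 2 ≤ (a.1 : ℕ) := h1
    _ = (a.1 : ℕ) ^ 1 := (pow_one _).symm
    _ ≤ (a.1 : ℕ) ^ (a.2 + 1) := Nat.pow_le_pow_right a.1.2.pos (by omega)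

theorem PP.q_injective : Function.Injective PP.q := by
  intro a b h
  apply Nat.Primes.prodNatEquiv.injective
  exact Subtype.ext h

theorem wt_of_pow (a : PP) {d : ℕ} (hd : d ∣ a.2 + 1) : wt ((a.1 : ℕ) ^ d) a = d := by
  have h : Nat.log a.1 ((a.1 : ℕ) ^ d) = d := Nat.log_pow a.1.2.one_lt d
  unfold wt
  rw [h]
  simp [hd]

theorem wt_ne_zero {c : ℕ} {a : PP} (h : wt c a ≠ 0) :
    ∃ d, 0 < d ∧ c = (a.1 : ℕ) ^ d ∧ d ∣ a.2 + 1 := by
  unfold wt at h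
  split_ifs at h with h1
  · exact ⟨_, Nat.pos_of_ne_zero h, h1.1, h1.2⟩
  · exact absurd rfl h

/-- the summable majorant -/
theorem summable_q {τ : ℝ} (hτ : 1 < τ) : Summable (fun a : PP => ((a.q : ℕ) : ℝ) ^ (-τ)) := by
  have h := Real.summable_nat_rpow.mpr (show -τ < -1 by linarith)
  exact h.comp_injective PP.q_injective

theorem norm_q_cpow (a : PP) (s : ℂ) : ‖((a.q : ℕ) : ℂ) ^ (-s)‖ = ((a.q : ℕ) : ℝ) ^ (-s.re) := by
  rw [Complex.norm_natCast_cpow_of_pos a.q_pos]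
  simp

/-- The sum over prime powers for a single field. -/
theorem hasSum_single {c : ℕ} (hc : IsPrimePow c) {s : ℂ} (hs : 0 < s.re) :
    HasSum (fun a : PP => (wt c a : ℂ) / (a.2 + 1) * ((a.q : ℕ) : ℂ) ^ (-s))
      (-Complex.log (1 - (c : ℂ) ^ (-s))) := by
  obtain ⟨p, d, hp, hd, rfl⟩ := hc
  have hp' : p.Prime := Nat.prime_iff.mpr hp
  have hz : ‖((p ^ d : ℕ) : ℂ) ^ (-s)‖ < 1 := by
    rw [Complex.norm_natCast_cpow_of_pos (pow_pos hp'.pos _)]
    apply Real.rpow_lt_one_of_one_lt_of_neg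
    · exact_mod_cast Nat.one_lt_pow hd.ne' hp'.one_lt
    · simpa using hs
  have h := Complex.hasSum_taylorSeries_neg_log' hz
  let ι : ℕ → PP := fun j => (⟨p, hp'⟩, d * (j + 1) - 1)
  have hι1 : ∀ j, (ι j).2 + 1 = d * (j + 1) := by
    intro j
    have : 0 < d * (j + 1) := Nat.mul_pos hd (Nat.succ_pos j)
    simp only [ι]
    omega
  have hι : Function.Injective ι := by
    intro i j hij
    have h1 := hι1 i
    have h2 := hι1 j
    rw [hij, h2] at h1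
    have := Nat.eq_of_mul_eq_mul_left hd h1
    omega
  have hsupp : ∀ a : PP, a ∉ Set.range ι →
      (wt (p ^ d) a : ℂ) / (a.2 + 1) * ((a.q : ℕ) : ℂ) ^ (-s) = 0 := by
    intro a ha
    by_cases hw : wt (p ^ d) a = 0
    · simp [hw]
    · exfalso
      apply ha
      obtain ⟨e, he, h1, h2⟩ := wt_ne_zero hw
      have hpe : (a.1 : ℕ) = p := by
        have h3 : (a.1 : ℕ) ∣ p ^ d := by
          rw [h1]
          exact dvd_pow_self _ he.ne'
        exact (Nat.prime_dvd_prime_iff_eq a.1.2 hp').mp (a.1.2.dvd_of_dvd_pow h3)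
      have hed : e = d := by
        rw [hpe] at h1
        exact (Nat.pow_right_injective hp'.two_le h1).symm
      subst hed
      obtain ⟨j, hj⟩ := h2
      have hj0 : j ≠ 0 := by
        rintro rfl
        simp at hj
      refine ⟨j - 1, ?_⟩
      have hj1 : j - 1 + 1 = j := by omega
      apply Prod.ext
      · exact Subtype.ext hpe.symm
      · have := hι1 (j - 1)
        rw [hj1, ← hj] at this
        omega
  rw [← hι.hasSum_iff (f := fun a : PP => (wt (p ^ d) a : ℂ) / (a.2 + 1) * ((a.q : ℕ) : ℂ) ^ (-s))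
    hsupp]
  convert h using 1
  funext j
  simp only [Function.comp_apply]
  have hw : wt (p ^ d) (ι j) = d := by
    have : d ∣ (ι j).2 + 1 := by rw [hι1]; exact Dvd.intro _ rfl
    exact wt_of_pow (ι j) this
  have hc1 : (((ι j).2 : ℕ) : ℂ) + 1 = (d : ℂ) * ((j : ℂ) + 1) := by
    have := hι1 j
    exact_mod_cast this
  have hq : ((PP.q (ι j) : ℕ) : ℂ) ^ (-s) = (((p ^ d : ℕ) : ℂ) ^ (-s)) ^ (j + 1) := by
    have h1 : PP.q (ι j) = (p ^ d) ^ (j + 1) := by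
      rw [← pow_mul, ← hι1 j]
      rfl
    rw [h1]
    have h2 : (((p ^ d) ^ (j + 1) : ℕ) : ℂ) = (((p ^ d : ℕ) : ℂ)) ^ (j + 1) := by push_cast; ring
    rw [h2, ← Complex.natCast_cpow_natCast_mul]
    rw [mul_comm, Complex.cpow_mul_nat]
  rw [hw, hc1, hq]
  have hd' : (d : ℂ) ≠ 0 := by exact_mod_cast hd.ne'
  have hj' : (j : ℂ) + 1 ≠ 0 := by exact_mod_cast Nat.succ_ne_zero j
  field_simp

/-- The Dirichlet series `∑ N(q) / (k + 1) * q ^ (-s)` over the prime powers `q = p ^ (k + 1)`. -/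
noncomputable def L (N : PP → ℕ) (s : ℂ) : ℂ :=
  ∑' a : PP, (N a : ℂ) / (a.2 + 1) * ((a.q : ℕ) : ℂ) ^ (-s)

theorem norm_term (N : ℕ) (a : PP) (s : ℂ) :
    ‖(N : ℂ) / (a.2 + 1) * ((a.q : ℕ) : ℂ) ^ (-s)‖ =
      (N : ℝ) * (((a.2 : ℝ) + 1)⁻¹ * ((a.q : ℕ) : ℝ) ^ (-s.re)) := by
  rw [norm_mul, norm_q_cpow, norm_div, Complex.norm_natCast]
  have : ‖((a.2 : ℂ) + 1)‖ = (a.2 : ℝ) + 1 := by
    rw [← Nat.cast_succ, Complex.norm_natCast]
    push_cast
    ring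
  rw [this]
  ring

theorem term_le {n : ℕ} {N : PP → ℕ} (hb : ∀ a, N a ≤ a.q ^ n) (a : PP) (s : ℂ) :
    (N a : ℝ) * (((a.2 : ℝ) + 1)⁻¹ * ((a.q : ℕ) : ℝ) ^ (-s.re)) ≤
      ((a.q : ℕ) : ℝ) ^ (-(s.re - n)) := by
  have hq : (0 : ℝ) < ((a.q : ℕ) : ℝ) := by exact_mod_cast a.q_pos
  have h1 : (N a : ℝ) ≤ ((a.q : ℕ) : ℝ) ^ n := by exact_mod_cast hb a
  have h2 : ((a.2 : ℝ) + 1)⁻¹ ≤ 1 := by
    apply inv_le_one_of_one_le₀
    have : (0 : ℝ) ≤ a.2 := Nat.cast_nonneg _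
    linarith
  have h3 : (0 : ℝ) ≤ ((a.q : ℕ) : ℝ) ^ (-s.re) := Real.rpow_nonneg hq.le _
  calc (N a : ℝ) * (((a.2 : ℝ) + 1)⁻¹ * ((a.q : ℕ) : ℝ) ^ (-s.re))
      ≤ ((a.q : ℕ) : ℝ) ^ n * (1 * ((a.q : ℕ) : ℝ) ^ (-s.re)) := by
        gcongr
    _ = ((a.q : ℕ) : ℝ) ^ (-(s.re - n)) := by
        rw [one_mul, ← Real.rpow_natCast, ← Real.rpow_add hq]
        congr 1
        ring

theorem summable_L {n : ℕ} {N : PP → ℕ} (hb : ∀ a, N a ≤ a.q ^ n) {s : ℂ}
    (hs : (n : ℝ) + 1 < s.re) :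
    Summable (fun a : PP => (N a : ℂ) / (a.2 + 1) * ((a.q : ℕ) : ℂ) ^ (-s)) := by
  apply Summable.of_norm
  apply Summable.of_nonneg_of_le (fun a => norm_nonneg _) _
    (summable_q (τ := s.re - n) (by linarith))
  intro a
  rw [norm_term]
  exact term_le hb a s

theorem one_sub_ne {c : ℕ} (hc : IsPrimePow c) {s : ℂ} (hs : 0 < s.re) :
    ‖(c : ℂ) ^ (-s)‖ < 1 := by
  rw [Complex.norm_natCast_cpow_of_pos hc.pos]
  apply Real.rpow_lt_one_of_one_lt_of_neg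
  · exact_mod_cast hc.one_lt
  · simpa using hs

theorem log_factor {c : ℕ} (hc : IsPrimePow c) {s : ℂ} (hs : 0 < s.re) :
    Complex.log ((1 - (c : ℂ) ^ (-s))⁻¹) = -Complex.log (1 - (c : ℂ) ^ (-s)) := by
  apply Complex.log_inv
  intro h
  have h1 : (1 - (c : ℂ) ^ (-s)).re < 0 ∨ (1 - (c : ℂ) ^ (-s)).re = 0 ∨
      0 < (1 - (c : ℂ) ^ (-s)).re := lt_trichotomy _ _
  have h2 : 0 < (1 - (c : ℂ) ^ (-s)).re := by
    have h3 := one_sub_ne hc hs
    have h4 := Complex.re_le_norm ((c : ℂ) ^ (-s))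
    simp only [Complex.sub_re, Complex.one_re]
    linarith
  have h5 : Complex.arg (1 - (c : ℂ) ^ (-s)) < Real.pi / 2 :=
    (abs_lt.mp (Complex.abs_arg_lt_pi_div_two_iff.mpr (Or.inl h2))).2
  rw [h] at h5
  linarith [Real.pi_pos]

theorem factor_ne {c : ℕ} (hc : IsPrimePow c) {s : ℂ} (hs : 0 < s.re) :
    (1 - (c : ℂ) ^ (-s))⁻¹ ≠ 0 := by
  apply inv_ne_zero
  intro h
  have h1 : (c : ℂ) ^ (-s) = 1 := by linear_combination -h
  have h2 := one_sub_ne hc hs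
  rw [h1] at h2
  simp at h2

/-- The Euler product over a family of finite fields is the exponential of the series of
point counts. -/
theorem hasProd_euler {P : Type*} (c : P → ℕ) (hc : ∀ x, IsPrimePow (c x)) {N : PP → ℕ}
    (hN : ∀ a, HasSum (fun x => (wt (c x) a : ℝ)) (N a)) {n : ℕ} (hb : ∀ a, N a ≤ a.q ^ n)
    {s : ℂ} (hs : (n : ℝ) + 1 < s.re) :
    HasProd (fun x => (1 - (c x : ℂ) ^ (-s))⁻¹) (Complex.exp (L N s)) := by
  have hs0 : 0 < s.re := by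
    have : (0 : ℝ) ≤ n := Nat.cast_nonneg _
    linarith
  let f : PP × P → ℂ := fun z =>
    (wt (c z.2) z.1 : ℂ) / (z.1.2 + 1) * ((z.1.q : ℕ) : ℂ) ^ (-s)
  have hnf : ∀ z, ‖f z‖ = (wt (c z.2) z.1 : ℝ) *
      (((z.1.2 : ℝ) + 1)⁻¹ * ((z.1.q : ℕ) : ℝ) ^ (-s.re)) := fun z => norm_term _ _ _
  have hsum : Summable f := by
    apply Summable.of_norm
    rw [summable_prod_of_nonneg (fun z => norm_nonneg _)]
    have h1 : ∀ a : PP, HasSum (fun x => ‖f (a, x)‖)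
        ((N a : ℝ) * (((a.2 : ℝ) + 1)⁻¹ * ((a.q : ℕ) : ℝ) ^ (-s.re))) := by
      intro a
      simp only [hnf]
      exact (hN a).mul_right _
    refine ⟨fun a => (h1 a).summable, ?_⟩
    apply Summable.of_nonneg_of_le (fun a => tsum_nonneg fun x => norm_nonneg _) _
      (summable_q (τ := s.re - n) (by linarith))
    intro a
    rw [(h1 a).tsum_eq]
    exact term_le hb a s
  have h2 : ∀ a : PP, HasSum (fun x => f (a, x))
      ((N a : ℂ) / (a.2 + 1) * ((a.q : ℕ) : ℂ) ^ (-s)) := by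
    intro a
    have h3 : HasSum (fun x => ((wt (c x) a : ℝ) : ℂ)) ((N a : ℝ) : ℂ) :=
      Complex.hasSum_ofReal.mpr (hN a)
    have h4 := h3.mul_right ((((a.2 : ℂ) + 1)⁻¹) * ((a.q : ℕ) : ℂ) ^ (-s))
    have h5 : (fun x => f (a, x)) = fun x => ((wt (c x) a : ℝ) : ℂ) *
        ((((a.2 : ℂ) + 1)⁻¹) * ((a.q : ℕ) : ℂ) ^ (-s)) := by
      funext x
      simp only [f]
      push_cast
      ring
    have h6 : (N a : ℂ) / (a.2 + 1) * ((a.q : ℕ) : ℂ) ^ (-s) = ((N a : ℝ) : ℂ) *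
        ((((a.2 : ℂ) + 1)⁻¹) * ((a.q : ℕ) : ℂ) ^ (-s)) := by
      push_cast
      ring
    rw [h5, h6]
    exact h4
  have h5 : HasSum f (L N s) := by
    have h6 := hsum.hasSum
    have h7 := h6.prod_fiberwise h2
    rw [← h7.tsum_eq] at h6
    exact h6
  have h8 : HasSum (fun x => -Complex.log (1 - (c x : ℂ) ^ (-s))) (L N s) := by
    have h9 : HasSum (fun z : P × PP => f z.swap) (L N s) := by
      have := (Equiv.prodComm P PP).hasSum_iff (f := f) (a := L N s)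
      exact this.mpr h5
    exact h9.prod_fiberwise (fun x => hasSum_single (hc x) hs0)
  apply Complex.hasProd_of_hasSum_log (fun x => factor_ne (hc x) hs0)
  simpa only [log_factor (hc _) hs0] using h8

end Pool.Agent.TH26.Zeta
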