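import Pool.Agent.TH26.Zeta.Euler

/-!
# Homomorphisms between finite fields
-/

set_option autoImplicit false

namespace Pool.Agent.TH26.Zeta

instance (a : PP) : Fact (a.1 : ℕ).Prime := ⟨a.1.2⟩

/-- the finite field with `p ^ (k + 1)` elements -/
abbrev KK (a : PP) : Type := GaloisField a.1 (a.2 + 1)

theorem card_KK (a : PP) : Nat.card (KK a) = a.q := GaloisField.card _ _ (Nat.succ_ne_zero _)

instance (a : PP) : Finite (KK a) := by
  apply Nat.finite_of_card_ne_zero
  rw [card_KK]
  exact a.q_pos.ne'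

theorem finite_of_hom {κ : Type} [Field κ] {a : PP} (φ : κ →+* KK a) : Finite κ :=
  Finite.of_injective φ φ.injective

instance (κ : Type) [Field κ] (a : PP) : Finite (κ →+* KK a) := by
  by_cases h : Finite κ
  · exact Finite.of_injective (fun φ : κ →+* KK a => (φ : κ → KK a)) DFunLike.coe_injective
  · have : IsEmpty (κ →+* KK a) := ⟨fun φ => h (finite_of_hom φ)⟩
    infer_instance

theorem isPrimePow_card (κ : Type) [Field κ] [Finite κ] : IsPrimePow (Nat.card κ) := by
  have := Fintype.ofFinite κ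
  rw [Nat.card_eq_fintype_card]
  exact FiniteField.isPrimePow_card κ

/-- ring homomorphisms are linear over the prime field -/
def homEquiv (p : ℕ) (κ L : Type) [Field κ] [Field L] [Algebra (ZMod p) κ] [Algebra (ZMod p) L] :
    (κ →+* L) ≃ (κ →ₐ[ZMod p] L) where
  toFun ψ :=
    { toRingHom := ψ
      commutes' := fun r => RingHom.congr_fun (Subsingleton.elim
        (ψ.comp (algebraMap (ZMod p) κ)) (algebraMap (ZMod p) L)) r }
  invFun ψ := ψ.toRingHom
  left_inv _ := rfl
  right_inv _ := rfl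

/-- The number of homomorphisms from a finite field to the field with `q` elements. -/
theorem natCard_ringHom (κ : Type) [Field κ] [Finite κ] (a : PP) :
    Nat.card (κ →+* KK a) = wt (Nat.card κ) a := by
  by_cases hne : Nonempty (κ →+* KK a)
  · obtain ⟨φ⟩ := hne
    have hch : CharP κ a.1 := (φ.charP_iff φ.injective a.1).mpr inferInstance
    let _ : Algebra (ZMod a.1) κ := ZMod.algebra κ a.1
    let d := Module.finrank (ZMod a.1) κ
    have h1 : Nat.card κ = (a.1 : ℕ) ^ d := by
      rw [← FiniteField.pow_finrank_eq_natCard (a.1 : ℕ) κ]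
    have h2 : Module.finrank (ZMod a.1) (KK a) = a.2 + 1 := GaloisField.finrank _ (Nat.succ_ne_zero _)
    let e : (κ →+* KK a) ≃ (κ →ₐ[ZMod a.1] KK a) := homEquiv a.1 κ (KK a)
    have h3 : d ∣ a.2 + 1 := by
      rw [← h2]
      exact FiniteField.nonempty_algHom_iff_finrank_dvd.mp ⟨e φ⟩
    rw [Nat.card_congr e, h1, wt_of_pow a h3]
    exact FiniteField.natCard_algHom_of_finrank_dvd (by rw [h2]; exact h3)
  · have : IsEmpty (κ →+* KK a) := not_nonempty_iff.mp hne
    rw [Nat.card_of_isEmpty]
    by_contra h0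
    obtain ⟨d, hd, h1, h2⟩ := wt_ne_zero (Ne.symm h0)
    apply hne
    have hfin := Fintype.ofFinite κ
    have hc : CharP κ a.1 := by
      obtain ⟨p, hp⟩ := CharP.exists κ
      have hpp : p.Prime := CharP.char_is_prime κ p
      haveI : Fact p.Prime := ⟨hpp⟩
      obtain ⟨n, -, hn⟩ := FiniteField.card κ p
      have : (a.1 : ℕ) ∣ p ^ (n : ℕ) := by
        rw [← hn, ← Nat.card_eq_fintype_card, h1]
        exact dvd_pow_self _ hd.ne'
      have h3 : (a.1 : ℕ) = p :=
        (Nat.prime_dvd_prime_iff_eq a.1.2 hpp).mp (a.1.2.dvd_of_dvd_pow this)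
      rw [h3]
      exact hp
    let _ : Algebra (ZMod a.1) κ := ZMod.algebra κ a.1
    have h4 : Nat.card κ = (a.1 : ℕ) ^ Module.finrank (ZMod a.1) κ := by
      rw [← FiniteField.pow_finrank_eq_natCard (a.1 : ℕ) κ]
    have h5 : Module.finrank (ZMod a.1) κ = d := by
      rw [h1] at h4
      exact (Nat.pow_right_injective a.1.2.two_le h4).symm
    have h6 : Module.finrank (ZMod a.1) (KK a) = a.2 + 1 := GaloisField.finrank _ (Nat.succ_ne_zero _)
    have h7 : Module.finrank (ZMod a.1) κ ∣ Module.finrank (ZMod a.1) (KK a) := by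
      rw [h5, h6]
      exact h2
    obtain ⟨ψ⟩ := FiniteField.nonempty_algHom_of_finrank_dvd h7
    exact ⟨ψ.toRingHom⟩

/-- In a family of fields with finitely many homomorphisms to the field with `q` elements, the number
of homomorphisms is the sum of the weights. -/
theorem hasSum_wt {P : Type} (κ : P → Type) [∀ x, Field (κ x)] [∀ x, Finite (κ x)] (a : PP)
    [Finite (Σ x, (κ x →+* KK a))] :
    HasSum (fun x => (wt (Nat.card (κ x)) a : ℝ)) (Nat.card (Σ x, (κ x →+* KK a))) := by
  classical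
  have hS : (Set.range (Sigma.fst : (Σ x, (κ x →+* KK a)) → P)).Finite := Set.finite_range _
  let S : Finset P := hS.toFinset
  have h1 : ∀ x, x ∉ S → (wt (Nat.card (κ x)) a : ℝ) = 0 := by
    intro x hx
    rw [← natCard_ringHom (κ x) a]
    have : IsEmpty (κ x →+* KK a) := ⟨fun φ => hx (by
      simp only [S, Set.Finite.mem_toFinset]
      exact ⟨⟨x, φ⟩, rfl⟩)⟩
    simp
  have h2 : (Nat.card (Σ x, (κ x →+* KK a)) : ℝ) = ∑ x ∈ S, (wt (Nat.card (κ x)) a : ℝ) := by
    have e : (Σ x, (κ x →+* KK a)) ≃ (Σ x : S, (κ x.1 →+* KK a)) :=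
      { toFun := fun z => ⟨⟨z.1, by
          simp only [S, Set.Finite.mem_toFinset]
          exact ⟨z, rfl⟩⟩, z.2⟩
        invFun := fun z => ⟨z.1.1, z.2⟩
        left_inv := fun z => rfl
        right_inv := fun z => rfl }
    rw [Nat.card_congr e, Nat.card_sigma]
    push_cast
    rw [← Finset.sum_coe_sort S]
    apply Finset.sum_congr rfl
    intro x _
    rw [natCard_ringHom]
  rw [h2]
  exact hasSum_sum_of_ne_finset_zero h1

end Pool.Agent.TH26.Zeta
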