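import Pool.Agent.TH26.Zeta.Main

/-!
# Meromorphic continuation and orders
-/

set_option autoImplicit false

namespace Pool.Agent.TH26.Zeta

open AlgebraicGeometry CategoryTheory Filter Topology

/-- the relation between the zeta functions of `X` and of a cubic hypersurface `Y` -/
def Rel (X Y : Scheme.{0}) (N m : ℕ) : Prop :=
  ∀ s : ℂ, (N : ℝ) + 2 < s.re →
    ConvergesAt X s ∧ ConvergesAt Y (s + m - 1) ∧
      zetaProd X s * zetaProd Y (s + m - 1) = riemannZeta (s - N)

theorem exists_rel {X : Scheme.{0}} (f : X ⟶ Spec (CommRingCat.of ℤ)) [LocallyOfFiniteType f]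
    [QuasiCompact f] :
    ∃ (N m : ℕ) (G : Fin m → Gate (Fin N)), Rel X (cubicScheme G) N m ∧
      ∀ a : PP, a.q * cnt (cubicScheme G) a + a.q ^ m * cnt X a = a.q ^ (m + N) := by
  obtain ⟨B, hB, hB1, hB2⟩ := exists_affine f
  obtain ⟨N, m, G, hG⟩ := exists_gates_of_finiteType B hB1
  have e : ∀ a : PP, Nonempty ((Spec (CommRingCat.of (KK a)) ⟶ X) ≃ Sol G (KK a)) := by
    intro a
    obtain ⟨e1⟩ := hB2 a
    obtain ⟨e2⟩ := hG (KK a)
    exact ⟨e1.trans e2⟩
  refine ⟨N, m, G, ?_, ?_⟩
  · intro s hs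
    have h1 := hasProd_X G f e (s := s) (by linarith)
    have h2 := hasProd_cubic G (s := s + m - 1) (by
      push_cast
      simp only [Complex.sub_re, Complex.add_re, Complex.natCast_re, Complex.one_re]
      linarith)
    refine ⟨h1.multipliable, h2.multipliable, ?_⟩
    have h3 : zetaProd X s = Complex.exp (L (cnt X) s) := h1.tprod_eq
    have h4 : zetaProd (cubicScheme G) (s + m - 1) =
        Complex.exp (L (cnt (cubicScheme G)) (s + m - 1)) := h2.tprod_eq
    rw [h3, h4, ← Complex.exp_add, L_add G e hs, exp_L_one]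
    simp only [Complex.sub_re, Complex.natCast_re]
    linarith
  · intro a
    obtain ⟨e⟩ := e a
    have h6 := card_cubic G (KK a)
    rw [← cnt_cubic, card_KK] at h6
    have h7 : cnt X a = Nat.card (Sol G (KK a)) := Nat.card_congr e
    rw [← h7] at h6
    rw [h6, pow_add]

theorem merOn_comp {F : ℂ → ℂ} (hF : MeromorphicOn F Set.univ) (c : ℂ) :
    MeromorphicOn (fun s => F (s + c)) Set.univ := by
  intro s _
  have h1 : MeromorphicAt F (s + c) := hF (s + c) trivial
  exact h1.comp_analyticAt (f := F) (g := fun s => s + c) (by fun_prop)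

theorem cont_of_cont {X Y : Scheme.{0}} {N m : ℕ} (h : Rel X Y N m) :
    (∃ F, IsCont X F) ↔ ∃ F, IsCont Y F := by
  have hz : MeromorphicOn riemannZeta Set.univ := fun s _ => meromorphicAt_zeta s
  have hne : ∀ s : ℂ, (N : ℝ) + 2 < s.re → riemannZeta (s - N) ≠ 0 := by
    intro s hs
    apply riemannZeta_ne_zero_of_one_le_re
    simp only [Complex.sub_re, Complex.natCast_re]
    linarith
  constructor
  · rintro ⟨F, hF, σ, hσ⟩
    refine ⟨fun w => riemannZeta (w + (1 - m - N)) * (F (w + (1 - m)))⁻¹, ?_,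
      max ((N : ℝ) + 2) σ + m, ?_⟩
    · exact (merOn_comp hz _).mul (merOn_comp hF _).inv
    · intro w hw
      have h1 : (N : ℝ) + 2 < (w + (1 - m)).re := by
        have := le_max_left ((N : ℝ) + 2) σ
        simp only [Complex.add_re, Complex.sub_re, Complex.natCast_re, Complex.one_re]
        linarith
      have h2 : σ < (w + (1 - m)).re := by
        have := le_max_right ((N : ℝ) + 2) σ
        simp only [Complex.add_re, Complex.sub_re, Complex.natCast_re, Complex.one_re]
        linarith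
      obtain ⟨-, -, h3⟩ := h _ h1
      have h4 := hne _ h1
      have h5 : w + (1 - m) + m - 1 = w := by ring
      have h6 : w + (1 - m - N) = w + (1 - m) - N := by ring
      rw [h5] at h3
      have h7 : zetaProd X (w + (1 - m)) ≠ 0 := by
        intro h0
        rw [h0, zero_mul] at h3
        exact h4 h3.symm
      simp only
      rw [hσ _ h2, h6, ← h3]
      field_simp
  · rintro ⟨F, hF, σ, hσ⟩
    refine ⟨fun s => riemannZeta (s + (-N)) * (F (s + (m - 1)))⁻¹, ?_,
      max ((N : ℝ) + 2) (σ + 1), ?_⟩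
    · exact (merOn_comp hz _).mul (merOn_comp hF _).inv
    · intro s hs
      have h1 : (N : ℝ) + 2 < s.re := lt_of_le_of_lt (le_max_left _ _) hs
      have h2 : σ < (s + (m - 1)).re := by
        have := lt_of_le_of_lt (le_max_right ((N : ℝ) + 2) (σ + 1)) hs
        simp only [Complex.add_re, Complex.sub_re, Complex.natCast_re, Complex.one_re]
        have : (0 : ℝ) ≤ m := Nat.cast_nonneg m
        linarith
      obtain ⟨-, -, h3⟩ := h _ h1
      have h4 := hne _ h1
      have h5 : s + (m - 1) = s + m - 1 := by ring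
      have h7 : zetaProd Y (s + m - 1) ≠ 0 := by
        intro h0
        rw [h0, mul_zero] at h3
        exact h4 h3.symm
      simp only
      rw [hσ _ h2, h5, ← sub_eq_add_neg, ← h3]
      field_simp

/-- The orders of the zeta functions at all points of the complex plane. -/
theorem orders {X Y : Scheme.{0}} {N m : ℕ} (h : Rel X Y N m) {F₁ F₂ : ℂ → ℂ}
    (h₁ : IsCont X F₁) (h₂ : IsCont Y F₂) (s : ℂ) :
    meromorphicOrderAt F₁ s + meromorphicOrderAt F₂ (s + m - 1) =
      meromorphicOrderAt riemannZeta (s - N) := by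
  have hz : MeromorphicOn riemannZeta Set.univ := fun s _ => meromorphicAt_zeta s
  obtain ⟨hF₁, σ₁, hσ₁⟩ := h₁
  obtain ⟨hF₂, σ₂, hσ₂⟩ := h₂
  let P : ℂ → ℂ := F₁ * fun s => F₂ (s + (m - 1))
  let Q : ℂ → ℂ := fun s => riemannZeta (s + (-N))
  have hP : MeromorphicOn P Set.univ := hF₁.mul (merOn_comp hF₂ _)
  have hQ : MeromorphicOn Q Set.univ := merOn_comp hz _
  have hPQ : MeromorphicOn (P - Q) Set.univ := hP.sub hQ
  let M : ℝ := max (N + 2) (max σ₁ (σ₂ + 1))
  have hzero : ∀ w : ℂ, M < w.re → (P - Q) w = 0 := by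
    intro w hw
    have h1 : (N : ℝ) + 2 < w.re := lt_of_le_of_lt (le_max_left _ _) hw
    have h2 : σ₁ < w.re :=
      lt_of_le_of_lt ((le_max_left _ _).trans (le_max_right _ _)) hw
    have h3 : σ₂ < (w + (m - 1)).re := by
      have := lt_of_le_of_lt ((le_max_right _ _).trans (le_max_right ((N : ℝ) + 2) _)) hw
      simp only [Complex.add_re, Complex.sub_re, Complex.natCast_re, Complex.one_re]
      have : (0 : ℝ) ≤ m := Nat.cast_nonneg m
      linarith
    obtain ⟨-, -, h4⟩ := h _ h1
    have h5 : w + ((m : ℂ) - 1) = w + m - 1 := by ring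
    simp only [Pi.sub_apply, P, Q, Pi.mul_apply]
    rw [hσ₁ _ h2, hσ₂ _ h3, h5, ← sub_eq_add_neg, ← h4, sub_self]
  have htop : ∀ w : ℂ, meromorphicOrderAt (P - Q) w = ⊤ := by
    by_contra hcon
    push Not at hcon
    obtain ⟨w, hw⟩ := hcon
    have h1 : meromorphicOrderAt (P - Q) ((M + 1 : ℝ) : ℂ) ≠ ⊤ :=
      hPQ.meromorphicOrderAt_ne_top_of_isPreconnected (x := w) isPreconnected_univ trivial
        trivial hw
    apply h1
    rw [meromorphicOrderAt_eq_top_iff]
    have h2 : ∀ᶠ z : ℂ in 𝓝 ((M + 1 : ℝ) : ℂ), M < z.re := by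
      apply (isOpen_lt continuous_const Complex.continuous_re).mem_nhds
      simp
    filter_upwards [h2.filter_mono nhdsWithin_le_nhds] with z hz'
    exact hzero z hz'
  have hEq : P =ᶠ[𝓝[≠] s] Q := by
    have := meromorphicOrderAt_eq_top_iff.mp (htop s)
    filter_upwards [this] with z hz'
    exact sub_eq_zero.mp hz'
  have h1 := meromorphicOrderAt_congr hEq
  have h2 : meromorphicOrderAt P s = meromorphicOrderAt F₁ s +
      meromorphicOrderAt (fun s => F₂ (s + (m - 1))) s :=
    meromorphicOrderAt_mul (hF₁ s trivial) (merOn_comp hF₂ _ s trivial)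
  have h3 : meromorphicOrderAt (fun s => F₂ (s + (m - 1))) s =
      meromorphicOrderAt F₂ (s + (m - 1)) :=
    meromorphicOrderAt_comp_add_const_eq_meromorphicOrderAt
  have h4 : meromorphicOrderAt Q s = meromorphicOrderAt riemannZeta (s + (-N)) :=
    meromorphicOrderAt_comp_add_const_eq_meromorphicOrderAt
  have h5 : s + ((m : ℂ) - 1) = s + m - 1 := by ring
  have h6 : s - (N : ℂ) = s + (-N) := sub_eq_add_neg _ _
  rw [← h5, h6, ← h4, ← h1, h2, h3]

end Pool.Agent.TH26.Zeta
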