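import Mathlib

/-!
# Systems of elementary equations

Every algebra of finite type over `ℤ` is presented, as far as its homomorphisms to fields are
concerned, by equations of the three types `x_a x_b = x_c`, `x_a + x_b = x_c`, `x_a = 1`.
-/

set_option autoImplicit false

namespace Pool.Agent.TH26.Zeta

open MvPolynomial

/-- An elementary equation: `x_a x_b = x_c`, `x_a + x_b = x_c` or `x_a = 1`. -/
inductive Gate (σ : Type) : Type
  | mul (a b c : σ) : Gate σ
  | add (a b c : σ) : Gate σ
  | one (a : σ) : Gate σ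

namespace Gate

variable {σ τ : Type}

/-- the polynomial `x_a x_b - x_c`, `x_a + x_b - x_c` or `x_a - 1` -/
noncomputable def poly : Gate σ → MvPolynomial σ ℤ
  | mul a b c => X a * X b - X c
  | add a b c => X a + X b - X c
  | one a => X a - 1

/-- change of variables -/
def map (φ : σ → τ) : Gate σ → Gate τ
  | mul a b c => mul (φ a) (φ b) (φ c)
  | add a b c => add (φ a) (φ b) (φ c)
  | one a => one (φ a)

/-- the equation holds at a point -/
def Holds {K : Type} [CommRing K] (z : σ → K) : Gate σ → Prop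
  | mul a b c => z a * z b = z c
  | add a b c => z a + z b = z c
  | one a => z a = 1

theorem holds_iff {K : Type} [CommRing K] (z : σ → K) (g : Gate σ) :
    g.Holds z ↔ aeval z g.poly = 0 := by
  cases g <;> simp [Holds, poly, sub_eq_zero]

theorem holds_map {K : Type} [CommRing K] (φ : σ → τ) (z : τ → K) (g : Gate σ) :
    (g.map φ).Holds z ↔ g.Holds (z ∘ φ) := by
  cases g <;> rfl

end Gate

/-- a polynomial which is computed by elementary equations -/
def Comp {σ : Type} (f : MvPolynomial σ ℤ) : Prop :=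
  ∃ (τ : Type) (_ : Finite τ) (G : List (Gate (σ ⊕ τ))) (o : τ),
    ∀ (K : Type) [Field K] (x : σ → K), ∃ y : τ → K, y o = aeval x f ∧
      ∀ y' : τ → K, (∀ g ∈ G, g.Holds (Sum.elim x y')) ↔ y' = y

variable {σ : Type}

theorem comp_combine {f1 f2 f : MvPolynomial σ ℤ} (h1 : Comp f1) (h2 : Comp f2)
    (mk : ∀ ρ : Type, ρ → ρ → ρ → Gate ρ)
    (F : ∀ (K : Type) [Field K], K → K → K)
    (hmk : ∀ (K : Type) [Field K] (ρ : Type) (z : ρ → K) (a b c : ρ),
      (mk ρ a b c).Holds z ↔ z c = F K (z a) (z b))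
    (hf : ∀ (K : Type) [Field K] (x : σ → K), aeval x f = F K (aeval x f1) (aeval x f2)) :
    Comp f := by
  obtain ⟨τ1, hτ1, G1, o1, H1⟩ := h1
  obtain ⟨τ2, hτ2, G2, o2, H2⟩ := h2
  let i1 : σ ⊕ τ1 → σ ⊕ (Unit ⊕ τ1 ⊕ τ2) := Sum.map id (fun t => Sum.inr (Sum.inl t))
  let i2 : σ ⊕ τ2 → σ ⊕ (Unit ⊕ τ1 ⊕ τ2) := Sum.map id (fun t => Sum.inr (Sum.inr t))
  refine ⟨Unit ⊕ τ1 ⊕ τ2, inferInstance,
    (mk _ (Sum.inr (Sum.inr (Sum.inl o1))) (Sum.inr (Sum.inr (Sum.inr o2)))
      (Sum.inr (Sum.inl ()))) :: (G1.map (Gate.map i1) ++ G2.map (Gate.map i2)),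
    Sum.inl (), ?_⟩
  intro K _ x
  obtain ⟨y1, hy1, H1'⟩ := H1 K x
  obtain ⟨y2, hy2, H2'⟩ := H2 K x
  refine ⟨Sum.elim (fun _ => aeval x f) (Sum.elim y1 y2), rfl, ?_⟩
  intro y'
  have e1 : Sum.elim x y' ∘ i1 = Sum.elim x (fun t => y' (Sum.inr (Sum.inl t))) := by
    funext t
    rcases t with t | t <;> rfl
  have e2 : Sum.elim x y' ∘ i2 = Sum.elim x (fun t => y' (Sum.inr (Sum.inr t))) := by
    funext t
    rcases t with t | t <;> rfl
  have k1 : (∀ g ∈ G1.map (Gate.map i1), g.Holds (Sum.elim x y')) ↔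
      (fun t => y' (Sum.inr (Sum.inl t))) = y1 := by
    rw [← H1']
    simp only [List.mem_map, forall_exists_index, and_imp, forall_apply_eq_imp_iff₂,
      Gate.holds_map, e1]
  have k2 : (∀ g ∈ G2.map (Gate.map i2), g.Holds (Sum.elim x y')) ↔
      (fun t => y' (Sum.inr (Sum.inr t))) = y2 := by
    rw [← H2']
    simp only [List.mem_map, forall_exists_index, and_imp, forall_apply_eq_imp_iff₂,
      Gate.holds_map, e2]
  rw [List.forall_mem_cons, List.forall_mem_append, k1, k2, hmk]
  simp only [Sum.elim_inr]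
  constructor
  · rintro ⟨ha, hb, hc⟩
    funext t
    rcases t with t | t | t
    · rw [Sum.elim_inl, hf, ← hy1, ← hy2, ← hb, ← hc]
      exact ha
    · exact congrFun hb t
    · exact congrFun hc t
  · rintro rfl
    refine ⟨?_, ?_, ?_⟩
    · simp only [Sum.elim_inl, Sum.elim_inr]
      rw [hf, hy1, hy2]
    · rfl
    · rfl

theorem comp_zero : Comp (0 : MvPolynomial σ ℤ) := by
  refine ⟨Unit, inferInstance, [Gate.add (Sum.inr ()) (Sum.inr ()) (Sum.inr ())], (), ?_⟩
  intro K _ x
  refine ⟨fun _ => 0, by simp, fun y' => ?_⟩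
  simp only [List.mem_singleton, forall_eq, Gate.Holds, Sum.elim_inr]
  constructor
  · intro h
    funext u
    have : y' () = 0 := by linear_combination h
    exact this
  · rintro rfl
    simp

theorem comp_one : Comp (1 : MvPolynomial σ ℤ) := by
  refine ⟨Unit, inferInstance, [Gate.one (Sum.inr ())], (), ?_⟩
  intro K _ x
  refine ⟨fun _ => 1, by simp, fun y' => ?_⟩
  simp only [List.mem_singleton, forall_eq, Gate.Holds, Sum.elim_inr]
  constructor
  · intro h
    funext u
    exact h
  · rintro rfl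
    rfl

theorem comp_X (i : σ) : Comp (X i : MvPolynomial σ ℤ) := by
  refine ⟨Bool, inferInstance, [Gate.one (Sum.inr false),
    Gate.mul (Sum.inl i) (Sum.inr false) (Sum.inr true)], true, ?_⟩
  intro K _ x
  refine ⟨fun b => cond b (x i) 1, by simp, fun y' => ?_⟩
  simp only [List.mem_cons, List.not_mem_nil, or_false, forall_eq_or_imp, forall_eq, Gate.Holds,
    Sum.elim_inr, Sum.elim_inl]
  constructor
  · rintro ⟨h1, h2⟩
    funext b
    cases b
    · exact h1
    · rw [h1, mul_one] at h2
      exact h2.symm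
  · rintro rfl
    simp

theorem comp_add {f g : MvPolynomial σ ℤ} (hf : Comp f) (hg : Comp g) : Comp (f + g) :=
  comp_combine hf hg (fun _ a b c => Gate.add a b c) (fun _ _ u v => u + v)
    (fun K _ ρ z a b c => by simp only [Gate.Holds]; exact eq_comm)
    (fun K _ x => by simp)

theorem comp_mul {f g : MvPolynomial σ ℤ} (hf : Comp f) (hg : Comp g) : Comp (f * g) :=
  comp_combine hf hg (fun _ a b c => Gate.mul a b c) (fun _ _ u v => u * v)
    (fun K _ ρ z a b c => by simp only [Gate.Holds]; exact eq_comm)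
    (fun K _ x => by simp)

theorem comp_sub {f g : MvPolynomial σ ℤ} (hf : Comp f) (hg : Comp g) : Comp (f - g) :=
  comp_combine hf hg (fun _ a b c => Gate.add c b a) (fun _ _ u v => u - v)
    (fun K _ ρ z a b c => by simp only [Gate.Holds]; rw [eq_sub_iff_add_eq])
    (fun K _ x => by simp)

theorem comp_C (a : ℤ) : Comp (C a : MvPolynomial σ ℤ) := by
  induction a with
  | zero => simpa using comp_zero
  | succ n ih => simpa using comp_add ih comp_one
  | pred n ih =>
    have := comp_sub ih comp_one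
    simpa using this

theorem comp_all (f : MvPolynomial σ ℤ) : Comp f := by
  induction f using MvPolynomial.induction_on with
  | C a => exact comp_C a
  | add p q hp hq => exact comp_add hp hq
  | mul_X p i hp => exact comp_mul hp (comp_X i)

/-- a finite list of polynomials is computed by one system of elementary equations -/
theorem exists_system (S : List (MvPolynomial σ ℤ)) :
    ∃ (τ : Type) (_ : Finite τ) (G : List (Gate (σ ⊕ τ))),
      ∀ (K : Type) [Field K] (x : σ → K), ∃ y : τ → K,
        ∀ y' : τ → K, (∀ g ∈ G, g.Holds (Sum.elim x y')) ↔ (y' = y ∧ ∀ f ∈ S, aeval x f = 0) := by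
  induction S with
  | nil =>
    refine ⟨Empty, inferInstance, [], fun K _ x => ⟨fun e => e.elim, fun y' => ?_⟩⟩
    simp only [List.not_mem_nil, false_imp_iff, implies_true, and_true, true_iff]
    exact Subsingleton.elim _ _
  | cons f S ih =>
    obtain ⟨τ2, hτ2, G2, H2⟩ := ih
    obtain ⟨τ1, hτ1, G1, o1, H1⟩ := comp_all f
    let i1 : σ ⊕ τ1 → σ ⊕ (τ1 ⊕ τ2) := Sum.map id Sum.inl
    let i2 : σ ⊕ τ2 → σ ⊕ (τ1 ⊕ τ2) := Sum.map id Sum.inr
    refine ⟨τ1 ⊕ τ2, inferInstance,
      Gate.add (Sum.inr (Sum.inl o1)) (Sum.inr (Sum.inl o1)) (Sum.inr (Sum.inl o1)) ::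
        (G1.map (Gate.map i1) ++ G2.map (Gate.map i2)), fun K _ x => ?_⟩
    obtain ⟨y1, hy1, H1'⟩ := H1 K x
    obtain ⟨y2, H2'⟩ := H2 K x
    refine ⟨Sum.elim y1 y2, fun y' => ?_⟩
    have e1 : Sum.elim x y' ∘ i1 = Sum.elim x (fun t => y' (Sum.inl t)) := by
      funext t
      rcases t with t | t <;> rfl
    have e2 : Sum.elim x y' ∘ i2 = Sum.elim x (fun t => y' (Sum.inr t)) := by
      funext t
      rcases t with t | t <;> rfl
    have k1 : (∀ g ∈ G1.map (Gate.map i1), g.Holds (Sum.elim x y')) ↔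
        (fun t => y' (Sum.inl t)) = y1 := by
      rw [← H1']
      simp only [List.mem_map, forall_exists_index, and_imp, forall_apply_eq_imp_iff₂,
        Gate.holds_map, e1]
    have k2 : (∀ g ∈ G2.map (Gate.map i2), g.Holds (Sum.elim x y')) ↔
        ((fun t => y' (Sum.inr t)) = y2 ∧ ∀ f ∈ S, aeval x f = 0) := by
      rw [← H2']
      simp only [List.mem_map, forall_exists_index, and_imp, forall_apply_eq_imp_iff₂,
        Gate.holds_map, e2]
    rw [List.forall_mem_cons, List.forall_mem_append, List.forall_mem_cons, k1, k2]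
    simp only [Gate.Holds, Sum.elim_inr]
    constructor
    · rintro ⟨h0, h1, h2, h3⟩
      have h4 : y' (Sum.inl o1) = 0 := by linear_combination h0
      refine ⟨?_, ?_, h3⟩
      · funext t
        rcases t with t | t
        · exact congrFun h1 t
        · exact congrFun h2 t
      · rw [← hy1, ← h1]
        exact h4
    · rintro ⟨rfl, h1, h2⟩
      refine ⟨?_, rfl, rfl, h2⟩
      simp only [Sum.elim_inl]
      rw [hy1, h1, add_zero]

/-- the solutions of a system of elementary equations in a field -/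
abbrev Sol {ι ν : Type} (G : ι → Gate ν) (K : Type) [CommRing K] : Type :=
  {z : ν → K // ∀ j, (G j).Holds z}

/-- the common zeros of a list of polynomials -/
abbrev Zer {n : ℕ} (S : List (MvPolynomial (Fin n) ℤ)) (K : Type) [CommRing K] : Type :=
  {x : Fin n → K // ∀ f ∈ S, aeval x f = 0}

theorem exists_gates {n : ℕ} (S : List (MvPolynomial (Fin n) ℤ)) :
    ∃ (N m : ℕ) (G : Fin m → Gate (Fin N)), ∀ (K : Type) [Field K],
      Nonempty (Zer S K ≃ Sol G K) := by
  classical
  obtain ⟨τ, hτ, G, H⟩ := exists_system S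
  obtain ⟨N, ⟨e⟩⟩ := Finite.exists_equiv_fin (Fin n ⊕ τ)
  let G' : List (Gate (Fin N)) := G.map (Gate.map e)
  refine ⟨N, G'.length, fun j => G'.get j, fun K _ => ?_⟩
  choose y hy using H K
  have hG : ∀ z : Fin N → K, (∀ j : Fin G'.length, (G'.get j).Holds z) ↔
      ∀ g ∈ G, g.Holds (z ∘ e) := by
    intro z
    have : (∀ j : Fin G'.length, (G'.get j).Holds z) ↔ ∀ g ∈ G', g.Holds z := by
      rw [List.forall_mem_iff_get]
    rw [this]
    simp only [G', List.mem_map, forall_exists_index, and_imp, forall_apply_eq_imp_iff₂,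
      Gate.holds_map]
  have hz : ∀ z : Fin N → K, z ∘ e = Sum.elim (fun i => z (e (Sum.inl i)))
      (fun t => z (e (Sum.inr t))) := by
    intro z
    funext t
    rcases t with t | t <;> rfl
  refine ⟨{ toFun := fun x => ⟨Sum.elim x.1 (y x.1) ∘ e.symm, ?_⟩
            invFun := fun z => ⟨fun i => z.1 (e (Sum.inl i)), ?_⟩
            left_inv := ?_
            right_inv := ?_ }⟩
  · rw [hG]
    have : (Sum.elim x.1 (y x.1) ∘ e.symm) ∘ e = Sum.elim x.1 (y x.1) := by
      funext t
      simp
    rw [this]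
    exact (hy x.1 (y x.1)).mpr ⟨rfl, x.2⟩
  · have h1 := (hG z.1).mp z.2
    rw [hz] at h1
    exact ((hy _ _).mp h1).2
  · intro x
    apply Subtype.ext
    funext i
    simp
  · intro z
    apply Subtype.ext
    have h1 := (hG z.1).mp z.2
    rw [hz] at h1
    have h2 := ((hy _ _).mp h1).1
    funext i
    simp only [Function.comp_apply]
    rcases h : e.symm i with t | t
    · simp only [Sum.elim_inl]
      rw [← h]
      simp
    · simp only [Sum.elim_inr]
      rw [← h2]
      change z.1 (e (Sum.inr t)) = z.1 i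
      rw [← h]
      simp

end Pool.Agent.TH26.Zeta
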