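import Pool.Agent.TH26.Zeta.Affine
import Pool.Agent.TH26.Zeta.Cubic

/-!
# Arithmetic zeta functions and smooth affine cubic hypersurfaces
-/

set_option autoImplicit false

namespace Pool.Agent.TH26.Zeta

open AlgebraicGeometry CategoryTheory Filter Topology

/-- the Euler product over the closed points of a scheme -/
noncomputable def zetaProd (X : Scheme.{0}) (s : ℂ) : ℂ :=
  ∏' x : {x : X // IsClosed ({x} : Set X)},
    (1 - ((Nat.card (X.residueField x.1) : ℂ) ^ (-s)))⁻¹

/-- the Euler product of a scheme converges at `s` -/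
def ConvergesAt (X : Scheme.{0}) (s : ℂ) : Prop :=
  Multipliable fun x : {x : X // IsClosed ({x} : Set X)} =>
    (1 - ((Nat.card (X.residueField x.1) : ℂ) ^ (-s)))⁻¹

/-- `F` is a meromorphic continuation of the zeta function of `X` -/
def IsCont (X : Scheme.{0}) (F : ℂ → ℂ) : Prop :=
  MeromorphicOn F Set.univ ∧ ∃ σ : ℝ, ∀ s : ℂ, σ < s.re → F s = zetaProd X s

theorem meromorphicAt_zeta (s : ℂ) : MeromorphicAt riemannZeta s := by
  by_cases hs : s = 1
  · subst hs
    refine ⟨2, ?_⟩
    apply Complex.analyticAt_of_differentiable_on_punctured_nhds_of_continuousAt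
    · filter_upwards [self_mem_nhdsWithin] with z hz
      have hz1 : z ≠ 1 := hz
      simp only [smul_eq_mul]
      exact ((differentiableAt_id.sub_const 1).pow 2).mul (differentiableAt_riemannZeta hz1)
    · rw [continuousAt_iff_punctured_nhds]
      have h1 := riemannZeta_residue_one
      have h2 : Tendsto (fun z : ℂ => z - 1) (𝓝[≠] 1) (𝓝 0) := by
        have : ContinuousAt (fun z : ℂ => z - 1) 1 := by fun_prop
        have h3 := this.tendsto
        rw [sub_self] at h3
        exact h3.mono_left nhdsWithin_le_nhds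
      have h4 := h2.mul h1
      simp only [smul_eq_mul, sub_self, zero_mul] at h4 ⊢
      rw [zero_pow (by norm_num), zero_mul]
      refine h4.congr fun z => ?_
      ring
  · apply AnalyticAt.meromorphicAt
    have : DifferentiableOn ℂ riemannZeta {1}ᶜ := fun z hz =>
      (differentiableAt_riemannZeta hz).differentiableWithinAt
    exact this.analyticAt (isOpen_compl_singleton.mem_nhds hs)

/-- `ζ(s)` as an exponential series over the prime powers -/
theorem exp_L_one {s : ℂ} (hs : 1 < s.re) :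
    Complex.exp (L (fun _ => 1) s) = riemannZeta s := by
  have h1 : ∀ a : PP, HasSum (fun p : Nat.Primes => (wt (p : ℕ) a : ℝ)) ((1 : ℕ) : ℝ) := by
    intro a
    have h2 : ∀ p : Nat.Primes, p ≠ a.1 → (wt (p : ℕ) a : ℝ) = 0 := by
      intro p hp
      by_contra h
      obtain ⟨d, hd, h3, h4⟩ := wt_ne_zero (c := (p : ℕ)) (a := a) (by exact_mod_cast h)
      apply hp
      have h5 : (a.1 : ℕ) ∣ (p : ℕ) := by
        rw [h3]
        exact dvd_pow_self _ hd.ne'
      exact Subtype.ext ((Nat.prime_dvd_prime_iff_eq a.1.2 p.2).mp h5).symm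
    have h3 := _root_.hasSum_single (f := fun p : Nat.Primes => (wt (p : ℕ) a : ℝ)) a.1 h2
    have h4 : wt ((a.1 : ℕ)) a = 1 := by
      have := wt_of_pow a (d := 1) (one_dvd _)
      rwa [pow_one] at this
    rw [h4] at h3
    exact h3
  have h2 := hasProd_euler (fun p : Nat.Primes => (p : ℕ)) (fun p => p.2.isPrimePow)
    (N := fun _ => 1) h1 (n := 0) (fun a => by simp) (s := s) (by simpa using hs)
  have h3 := riemannZeta_eulerProduct_hasProd hs
  exact h2.unique h3

theorem L_pow (n : ℕ) (s : ℂ) : L (fun a => a.q ^ n) s = L (fun _ => 1) (s - n) := by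
  unfold L
  apply tsum_congr
  intro a
  have hq : ((a.q : ℕ) : ℂ) ≠ 0 := by exact_mod_cast a.q_pos.ne'
  have h1 : ((a.q : ℕ) : ℂ) ^ (-(s - n)) = ((a.q : ℕ) : ℂ) ^ (-s) * ((a.q : ℕ) : ℂ) ^ n := by
    rw [← Complex.cpow_natCast, ← Complex.cpow_add _ _ hq]
    congr 1
    ring
  rw [h1]
  push_cast
  ring

section

variable {N m : ℕ} (G : Fin m → Gate (Fin N))

/-- the smooth affine cubic hypersurface `∑ t_j g_j(x) = 1` over `ℤ` -/
noncomputable abbrev cubicScheme : Scheme.{0} := Spec (CommRingCat.of (CubicRing G))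

/-- points of affine schemes -/
noncomputable def specPts (B : Type) [CommRing B] (a : PP) :
    (Spec (CommRingCat.of (KK a)) ⟶ Spec (CommRingCat.of B)) ≃ (B →+* KK a) where
  toFun g := (Spec.preimage g).hom
  invFun φ := Spec.map (CommRingCat.ofHom φ)
  left_inv g := by simp
  right_inv φ := by simp

theorem finite_sol (a : PP) : Finite (Sol G (KK a)) := by
  unfold Sol
  infer_instance

theorem finite_cub (a : PP) : Finite (Cub G (KK a)) := by
  unfold Cub
  infer_instance

theorem cnt_cubic (a : PP) : cnt (cubicScheme G) a = Nat.card (Cub G (KK a)) :=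
  Nat.card_congr ((specPts (CubicRing G) a).trans (cubicHomEquiv G (KK a)))

/-- the structure morphism -/
noncomputable def cubicMap : cubicScheme G ⟶ Spec (CommRingCat.of ℤ) :=
  Spec.map (CommRingCat.ofHom (algebraMap ℤ (CubicRing G)))

theorem lft_cubic : LocallyOfFiniteType (cubicMap G) := by
  unfold cubicMap
  rw [HasRingHomProperty.Spec_iff (P := @LocallyOfFiniteType)]
  exact RingHom.finiteType_algebraMap.mpr inferInstance

theorem qc_cubic : QuasiCompact (cubicMap G) := by
  unfold cubicMap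
  infer_instance

theorem hasProd_cubic {s : ℂ} (hs : ((N + m : ℕ) : ℝ) + 1 < s.re) :
    HasProd (fun x : {x : cubicScheme G // IsClosed ({x} : Set (cubicScheme G))} =>
      (1 - ((Nat.card ((cubicScheme G).residueField x.1) : ℂ) ^ (-s)))⁻¹)
      (Complex.exp (L (cnt (cubicScheme G)) s)) := by
  have := lft_cubic G
  refine hasProd_zeta (cubicMap G) (fun a => ?_) (n := N + m) (fun a => ?_) hs
  · have := finite_cub G a
    exact Finite.of_equiv _ ((specPts (CubicRing G) a).trans (cubicHomEquiv G (KK a))).symm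
  · rw [cnt_cubic, ← card_KK]
    exact card_cub_le G (KK a)

variable {X : Scheme.{0}} (f : X ⟶ Spec (CommRingCat.of ℤ))

theorem hasProd_X [LocallyOfFiniteType f]
    (e : ∀ a : PP, Nonempty ((Spec (CommRingCat.of (KK a)) ⟶ X) ≃ Sol G (KK a)))
    {s : ℂ} (hs : (N : ℝ) + 1 < s.re) :
    HasProd (fun x : {x : X // IsClosed ({x} : Set X)} =>
      (1 - ((Nat.card (X.residueField x.1) : ℂ) ^ (-s)))⁻¹) (Complex.exp (L (cnt X) s)) := by
  refine hasProd_zeta f (fun a => ?_) (n := N) (fun a => ?_) hs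
  · obtain ⟨e⟩ := e a
    have := finite_sol G a
    exact Finite.of_equiv _ e.symm
  · obtain ⟨e⟩ := e a
    unfold cnt
    rw [Nat.card_congr e, ← card_KK]
    exact card_sol_le G (KK a)

theorem L_add (e : ∀ a : PP, Nonempty ((Spec (CommRingCat.of (KK a)) ⟶ X) ≃ Sol G (KK a)))
    {s : ℂ} (hs : (N : ℝ) + 2 < s.re) :
    L (cnt X) s + L (cnt (cubicScheme G)) (s + m - 1) = L (fun _ => 1) (s - N) := by
  rw [← L_pow]
  have hX : ∀ a, cnt X a ≤ a.q ^ N := by
    intro a
    obtain ⟨e⟩ := e a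
    unfold cnt
    rw [Nat.card_congr e, ← card_KK]
    exact card_sol_le G (KK a)
  have hY : ∀ a, cnt (cubicScheme G) a ≤ a.q ^ (N + m) := by
    intro a
    rw [cnt_cubic, ← card_KK]
    exact card_cub_le G (KK a)
  have h1 := summable_L hX (s := s) (by linarith)
  have h2 := summable_L hY (s := s + m - 1) (by
    push_cast
    simp only [Complex.sub_re, Complex.add_re, Complex.natCast_re, Complex.one_re]
    linarith)
  unfold L
  rw [← h1.tsum_add h2]
  apply tsum_congr
  intro a
  have hq : ((a.q : ℕ) : ℂ) ≠ 0 := by exact_mod_cast a.q_pos.ne'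
  have h3 : ((a.q : ℕ) : ℂ) ^ (-(s + m - 1)) * ((a.q : ℕ) : ℂ) ^ m =
      ((a.q : ℕ) : ℂ) ^ (-s) * ((a.q : ℕ) : ℂ) := by
    rw [← Complex.cpow_natCast, ← Complex.cpow_add _ _ hq]
    have h4 : ((a.q : ℕ) : ℂ) ^ (-s) * ((a.q : ℕ) : ℂ) = ((a.q : ℕ) : ℂ) ^ (-s + 1) := by
      rw [Complex.cpow_add _ _ hq, Complex.cpow_one]
    rw [h4]
    congr 1
    ring
  have h5 : (a.q : ℂ) * (cnt (cubicScheme G) a : ℂ) + (a.q : ℂ) ^ m * (cnt X a : ℂ) =
      (a.q : ℂ) ^ m * (a.q : ℂ) ^ N := by
    obtain ⟨e⟩ := e a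
    have h6 := card_cubic G (KK a)
    rw [← cnt_cubic, card_KK] at h6
    have h7 : cnt X a = Nat.card (Sol G (KK a)) := Nat.card_congr e
    rw [← h7] at h6
    exact_mod_cast h6
  have hqm : ((a.q : ℕ) : ℂ) ^ m ≠ 0 := pow_ne_zero _ hq
  have h8 : (cnt (cubicScheme G) a : ℂ) * ((a.q : ℕ) : ℂ) ^ (-(s + m - 1)) =
      ((a.q : ℂ) ^ N - (cnt X a : ℂ)) * ((a.q : ℕ) : ℂ) ^ (-s) := by
    apply mul_right_cancel₀ hqm
    rw [mul_assoc, h3]
    linear_combination ((a.q : ℕ) : ℂ) ^ (-s) * h5
  have h9 : ((a.2 : ℂ) + 1) ≠ 0 := by exact_mod_cast Nat.succ_ne_zero a.2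
  field_simp
  push_cast
  linear_combination h8

end

end Pool.Agent.TH26.Zeta
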