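import Pool.Agent.TH26.Zeta.Fields

/-!
# Points of arithmetic schemes with values in finite fields
-/

set_option autoImplicit false

namespace Pool.Agent.TH26.Zeta

open AlgebraicGeometry CategoryTheory

instance jacobson_int : IsJacobsonRing ℤ := by
  rw [isJacobsonRing_iff_prime_eq]
  intro P hP
  by_cases h : P = ⊥
  · subst h
    rw [eq_bot_iff]
    intro x hx
    rw [Ideal.mem_jacobson_bot] at hx
    have h1 := hx x
    rw [Int.isUnit_iff] at h1
    rw [Ideal.mem_bot]
    rcases h1 with h1 | h1
    · have : x * x = 0 := by linarith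
      exact mul_self_eq_zero.1 this
    · exfalso
      nlinarith [mul_self_nonneg x]
  · have : P.IsMaximal := IsPrime.to_maximal_ideal h
    exact Ideal.jacobson_eq_self_of_isMaximal

/-- a field of finite type over `ℤ` is finite -/
theorem finite_of_finiteType (κ : Type) [Field κ] [Algebra.FiniteType ℤ κ] : Finite κ := by
  have hfin : Module.Finite ℤ κ := finite_of_finite_type_of_isJacobsonRing ℤ κ
  obtain ⟨p, hp⟩ := CharP.exists κ
  rcases CharP.char_is_prime_or_zero κ p with h | h
  · have : Fact p.Prime := ⟨h⟩
    let _ : Algebra (ZMod p) κ := ZMod.algebra κ p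
    have : IsScalarTower ℤ (ZMod p) κ := IsScalarTower.of_algebraMap_eq' (Subsingleton.elim _ _)
    have : Module.Finite (ZMod p) κ := Module.Finite.of_restrictScalars_finite ℤ (ZMod p) κ
    exact Module.finite_of_finite (ZMod p)
  · subst h
    exfalso
    have hch : CharZero κ := CharP.charP_to_charZero κ
    have hint : Algebra.IsIntegral ℤ κ := inferInstance
    have hinj : Function.Injective (algebraMap ℤ κ) := by
      intro x y hxy
      simpa using hxy
    have h1 : IsField ℤ := (Algebra.IsIntegral.isField_iff_isField hinj).mpr (Field.toIsField κ)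
    exact Int.not_isField h1

theorem finiteType_of_finite (κ : Type) [Field κ] [Finite κ] : Algebra.FiniteType ℤ κ := by
  classical
  have := Fintype.ofFinite κ
  refine ⟨⟨Finset.univ, ?_⟩⟩
  rw [Finset.coe_univ, eq_top_iff]
  intro x _
  exact Algebra.subset_adjoin (Set.mem_univ x)

variable {X : Scheme.{0}} (f : X ⟶ Spec (CommRingCat.of ℤ))

theorem isClosed_iff_finite [LocallyOfFiniteType f] (x : X) :
    IsClosed ({x} : Set X) ↔ Finite (X.residueField x) := by
  have hJ : JacobsonSpace X := LocallyOfFiniteType.jacobsonSpace f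
  rw [isClosed_singleton_iff_locallyOfFiniteType]
  constructor
  · intro h
    have h1 : LocallyOfFiniteType (X.fromSpecResidueField x ≫ f) := inferInstance
    obtain ⟨φ, hφ⟩ := Spec.map_surjective (X.fromSpecResidueField x ≫ f)
    rw [← hφ, HasRingHomProperty.Spec_iff (P := @LocallyOfFiniteType)] at h1
    have h2 : φ.hom = algebraMap ℤ (X.residueField x) := Subsingleton.elim _ _
    rw [h2] at h1
    have h3 : Algebra.FiniteType ℤ (X.residueField x) := RingHom.finiteType_algebraMap.mp h1
    exact finite_of_finiteType _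
  · intro h
    have h3 : Algebra.FiniteType ℤ (X.residueField x) := finiteType_of_finite _
    have h1 : LocallyOfFiniteType (X.fromSpecResidueField x ≫ f) := by
      obtain ⟨φ, hφ⟩ := Spec.map_surjective (X.fromSpecResidueField x ≫ f)
      rw [← hφ, HasRingHomProperty.Spec_iff (P := @LocallyOfFiniteType)]
      have h2 : φ.hom = algebraMap ℤ (X.residueField x) := Subsingleton.elim _ _
      rw [h2]
      exact RingHom.finiteType_algebraMap.mpr h3
    exact locallyOfFiniteType_of_comp _ f

/-- the number of points with values in the field with `q` elements -/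
noncomputable def cnt (X : Scheme.{0}) (a : PP) : ℕ := Nat.card (Spec (CommRingCat.of (KK a)) ⟶ X)

/-- morphisms of bundled rings are ring homomorphisms -/
def catHomEquiv (R S : CommRingCat.{0}) : (R ⟶ S) ≃ (R →+* S) where
  toFun g := g.hom
  invFun g := CommRingCat.ofHom g
  left_inv _ := rfl
  right_inv _ := rfl

/-- points with values in the field with `q` elements -/
noncomputable def ptsEquiv (X : Scheme.{0}) (a : PP) :
    (Spec (CommRingCat.of (KK a)) ⟶ X) ≃ Σ x : X, (X.residueField x →+* KK a) :=
  (Scheme.SpecToEquivOfField (KK a) X).trans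
    (Equiv.sigmaCongrRight fun x => catHomEquiv _ _)

theorem hasProd_zeta [LocallyOfFiniteType f] {n : ℕ}
    (hfin : ∀ a, Finite (Spec (CommRingCat.of (KK a)) ⟶ X))
    (hb : ∀ a, cnt X a ≤ a.q ^ n) {s : ℂ} (hs : (n : ℝ) + 1 < s.re) :
    HasProd (fun x : {x : X // IsClosed ({x} : Set X)} =>
      (1 - ((Nat.card (X.residueField x.1) : ℂ) ^ (-s)))⁻¹) (Complex.exp (L (cnt X) s)) := by
  have hF : ∀ x : {x : X // IsClosed ({x} : Set X)}, Finite (X.residueField x.1) :=
    fun x => (isClosed_iff_finite f x.1).mp x.2
  have e : ∀ a, (Spec (CommRingCat.of (KK a)) ⟶ X) ≃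
      Σ x : {x : X // IsClosed ({x} : Set X)}, (X.residueField x.1 →+* KK a) := fun a =>
    (ptsEquiv X a).trans
      { toFun := fun z => ⟨⟨z.1, (isClosed_iff_finite f z.1).mpr (finite_of_hom z.2)⟩, z.2⟩
        invFun := fun z => ⟨z.1.1, z.2⟩
        left_inv := fun z => rfl
        right_inv := fun z => rfl }
  have hF2 : ∀ a, Finite (Σ x : {x : X // IsClosed ({x} : Set X)},
      (X.residueField x.1 →+* KK a)) := fun a => by
    have := hfin a
    exact Finite.of_equiv _ (e a)
  refine hasProd_euler (fun x : {x : X // IsClosed ({x} : Set X)} =>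
    Nat.card (X.residueField x.1)) (fun x => isPrimePow_card _) (N := cnt X) ?_ hb hs
  intro a
  have h := hasSum_wt (fun x : {x : X // IsClosed ({x} : Set X)} => (X.residueField x.1 : Type)) a
  have h2 : cnt X a = Nat.card (Σ x : {x : X // IsClosed ({x} : Set X)},
      (X.residueField x.1 →+* KK a)) := Nat.card_congr (e a)
  rw [h2]
  exact h

end Pool.Agent.TH26.Zeta
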